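import Mathlib
import Pool.Agent.Lib.MP_adc574_ag.PieceW

/-! # The key lemma over the residue field, with conditions on the differences -/

namespace MPadc574Q

open Polynomial MPadc574

noncomputable section

variable {p : ℕ} [Fact p.Prime] {κ : Type*} [Field κ] [CharP κ p]

/-- The base case hypothesis of the piece lemma; all differences of the points are `M`-th powers
of elements of the prime field. -/
def BasePieceD (p m e b M : ℕ) (κ : Type*) [Field κ] : Prop :=
  ∀ (s : Finset κ) (W : κ → ℕ) (q : κ[X]), s.card ≤ b → (∀ c ∈ s, ∃ n : ℕ, c = n) →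
    (∀ c ∈ s, ∀ d ∈ s, ∃ n : ℕ, c - d = (n : κ) ^ M) →
    (∀ c ∈ s, 0 < W c ∧ W c < m) → q ≠ 0 → m * (q.natDegree + 1) ≤ ∑ c ∈ s, W c →
      cop p (wpoly e s id W * q) ≠ 0

theorem pieceD {m e b M : ℕ} (hme : m * e + 1 = p) (hm : 0 < m) (base : BasePieceD p m e b M κ) :
    ∀ (N : ℕ) (s : Finset κ) (W : κ → ℕ) (q : κ[X]), ∑ c ∈ s, W c = N → s.card ≤ b →
      (∀ c ∈ s, ∃ n : ℕ, c = n) → (∀ c ∈ s, ∀ d ∈ s, ∃ n : ℕ, c - d = (n : κ) ^ M) → q ≠ 0 →
      (∀ c ∈ s, W c ≤ m * (q.rootMultiplicity c + 1)) →
      m * (q.natDegree + 1) ≤ ∑ c ∈ s, W c → cop p (wpoly e s id W * q) ≠ 0 := by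
  classical
  have hp : 0 < p := (Fact.out : p.Prime).pos
  intro N
  induction N using Nat.strong_induction_on with
  | _ N ih =>
  intro s W q hN hcard hs hsD hq hroot hdeg hcop
  by_cases hbig : ∃ c ∈ s, m ≤ W c
  · obtain ⟨c, hc, hWc⟩ := hbig
    set W' : κ → ℕ := Function.update W c (W c - m) with hW'
    have hW'c : W' c = W c - m := by rw [hW', Function.update_self]
    have hW'ne : ∀ d, d ≠ c → W' d = W d := fun d hd => by
      rw [hW', Function.update_of_ne hd]
    have hprod : wpoly e s id W = (X - C c) ^ (p - 1) * wpoly e s id W' := by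
      unfold wpoly
      rw [← Finset.mul_prod_erase s _ hc, ← Finset.mul_prod_erase s (fun k => (X - C (id k)) ^ (W' k * e)) hc,
        ← mul_assoc]
      simp only [id]
      rw [hW'c, ← pow_add]
      congr 1
      · congr 1
        have h1 : W c * e = m * e + (W c - m) * e := by
          rw [← add_mul]
          congr 1
          omega
        omega
      · apply Finset.prod_congr rfl
        intro d hd
        rw [hW'ne d (Finset.ne_of_mem_erase hd)]
    rw [hprod, mul_assoc] at hcop
    have hqc : q.eval c = 0 := by
      by_cases h : m < W c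
      · have h1 := hroot c hc
        have h3 : 0 < q.rootMultiplicity c := by
          by_contra h0
          push Not at h0
          have h4 : q.rootMultiplicity c = 0 := by omega
          rw [h4] at h1
          omega
        exact (rootMultiplicity_pos hq).1 h3
      · have hWm : W c - m = 0 := by omega
        have h1 := eval_eq_zero_of_cop hcop
        rw [eval_mul] at h1
        rcases mul_eq_zero.1 h1 with h2 | h2
        · exfalso
          unfold wpoly at h2
          rw [eval_prod, Finset.prod_eq_zero_iff] at h2
          obtain ⟨d, hd, hd2⟩ := h2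
          by_cases hdc : d = c
          · subst hdc
            rw [hW'c, hWm, zero_mul, pow_zero, eval_one] at hd2
            exact one_ne_zero hd2
          · rw [eval_pow, eval_sub, eval_X, eval_C, id] at hd2
            exact pow_ne_zero _ (sub_ne_zero.2 (Ne.symm hdc)) hd2
        · exact h2
    obtain ⟨q', rfl⟩ := dvd_iff_isRoot.2 hqc
    have hq' : q' ≠ 0 := right_ne_zero_of_mul hq
    have hcop' : cop p (wpoly e s id W' * q') = 0 := by
      apply cop_of_mul_pow (α := c)
      rw [← hcop]
      congr 1
      have : (X - C c) ^ p = (X - C c) ^ (p - 1) * (X - C c) := by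
        rw [← pow_succ]
        congr 1
        omega
      rw [this]
      ring
    have hdq : ((X - C c) * q').natDegree = q'.natDegree + 1 := by
      rw [natDegree_mul (X_sub_C_ne_zero _) hq', natDegree_X_sub_C, add_comm]
    have hsum : ∑ d ∈ s, W d = ∑ d ∈ s, W' d + m := by
      rw [← Finset.add_sum_erase s W hc, ← Finset.add_sum_erase s W' hc, hW'c]
      have : ∑ d ∈ s.erase c, W d = ∑ d ∈ s.erase c, W' d := by
        apply Finset.sum_congr rfl
        intro d hd
        rw [hW'ne d (Finset.ne_of_mem_erase hd)]
      rw [this]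
      omega
    refine ih (∑ d ∈ s, W' d) (by omega) s W' q' rfl hcard hs hsD hq' ?_ ?_ hcop'
    · intro d hd
      have h1 := hroot d hd
      rw [rootMultiplicity_mul hq] at h1
      by_cases hdc : d = c
      · subst hdc
        rw [rootMultiplicity_X_sub_C_self] at h1
        rw [hW'c]
        have h2 : m * (1 + q'.rootMultiplicity d + 1) = m * (q'.rootMultiplicity d + 1) + m := by
          ring
        omega
      · rw [rootMultiplicity_X_sub_C, if_neg hdc, zero_add] at h1
        rw [hW'ne d hdc]
        exact h1
    · rw [hdq, hsum] at hdeg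
      have h2 : m * (q'.natDegree + 1 + 1) = m * (q'.natDegree + 1) + m := by ring
      omega
  · push Not at hbig
    set s' := s.filter (fun c => W c ≠ 0) with hs'
    have hsum : ∑ c ∈ s', W c = ∑ c ∈ s, W c := Finset.sum_filter_ne_zero s
    have hprod : wpoly e s' id W = wpoly e s id W := by
      unfold wpoly
      rw [hs', Finset.prod_filter]
      apply Finset.prod_congr rfl
      intro c _
      split_ifs with h
      · rfl
      · push Not at h
        rw [h, zero_mul, pow_zero]
    refine base s' W q ((Finset.card_filter_le _ _).trans hcard)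
      (fun c hc => hs c (Finset.mem_filter.1 hc).1)
      (fun c hc d hd => hsD c (Finset.mem_filter.1 hc).1 d (Finset.mem_filter.1 hd).1) ?_ hq
      (by rw [hsum]; exact hdeg) (by rw [hprod]; exact hcop)
    intro c hc
    have h1 := Finset.mem_filter.1 hc
    exact ⟨Nat.pos_of_ne_zero h1.2, hbig c h1.1⟩

end

end MPadc574Q
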