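import Mathlib
import Pool.Agent.Lib.MP_adc574_ag.ValuedW
import Pool.Agent.Lib.MP_adc574_ag_Q.PieceD

/-! # The theorem over a valued field of characteristic `p`, with conditions on differences -/

namespace MPadc574Q

open Polynomial IsLocalRing MPadc574

noncomputable section

variable {K : Type*} [Field K] (W : ValuationSubring K)

theorem valuedD {p : ℕ} [Fact p.Prime] [CharP K p] {m e b M : ℕ} (hme : m * e + 1 = p)
    (hm : 0 < m) (base : BasePieceD p m e b M (ResidueField W)) {ι : Type*} (a : ι → K)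
    (w : ι → ℕ) (I : Finset ι) (hIc : 1 < I.card) (hw : ∀ i ∈ I, w i ≤ m) (hinj : ∀ i ∈ I, ∀ j ∈ I, a i = a j → i = j)
    (hR : ∀ i ∈ I, ∀ j ∈ I, ∀ k ∈ I, i ≠ j → ∀ h : (a k - a i) / (a j - a i) ∈ W,
      ∃ n : ℕ, residue W ⟨_, h⟩ = (n : ResidueField W))
    (hR2 : ∀ i ∈ I, ∀ j ∈ I, ∀ k ∈ I, ∀ l ∈ I, i ≠ j → ∀ h : (a k - a l) / (a j - a i) ∈ W,
      ∃ n : ℕ, residue W ⟨_, h⟩ = (n : ResidueField W) ^ M)
    (hE : ∀ (s : Finset ι) (γ : W.ValueGroup), s ⊆ I →
      (∀ i ∈ s, ∀ j ∈ s, i ≠ j → W.valuation (a i - a j) = γ) → s.card ≤ b)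
    (q : K[X]) (hq : q ≠ 0) (hdeg : m * (q.natDegree + 1) ≤ ∑ i ∈ I, w i) :
    cop p (wpoly e I a w * q) ≠ 0 := by
  classical
  have hp : 0 < p := (Fact.out : p.Prime).pos
  intro hcop
  set v := W.valuation with hv
  -- a maximal pair
  obtain ⟨⟨i, j⟩, hij, hmax⟩ := Finset.exists_max_image I.offDiag (fun x : ι × ι =>
    (gn W (q.comp (C (a x.1) + C (a x.2 - a x.1) * X)) * v (a x.2 - a x.1)) ^ m /
      ∏ k ∈ I, max (v (a x.2 - a x.1)) (v (a k - a x.1)) ^ w k) (by
      obtain ⟨x, hx, y, hy, hxy⟩ := Finset.one_lt_card.1 hIc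
      exact ⟨(x, y), Finset.mem_offDiag.2 ⟨hx, hy, hxy⟩⟩)
  rw [Finset.mem_offDiag] at hij
  obtain ⟨hi, hj, hne⟩ := hij
  simp only at hmax hi hj hne
  set ρ := a j - a i with hρ
  have hρ0 : ρ ≠ 0 := by
    intro h
    exact hne (hinj i hi j hj (sub_eq_zero.1 h).symm)
  have hvρ : 0 < v ρ := zero_lt_iff.2 ((v.ne_zero_iff).2 hρ0)
  -- the transformed polynomial
  have hqc : q.comp (C (a i) + C ρ * X) ≠ 0 := by
    intro h
    rcases comp_eq_zero_iff.1 h with h1 | h1
    · exact hq h1
    · have h2 := congrArg (fun P => coeff P 1) h1.2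
      simp at h2
      exact hρ0 h2
  obtain ⟨β, hb0, hb, Q, hQ, hQ0⟩ := exists_primitive W hqc
  have hvb : 0 < v β := zero_lt_iff.2 ((v.ne_zero_iff).2 hb0)
  have hmemv : ∀ k, (a k - a i) / ρ ∈ W ↔ v (a k - a i) ≤ v ρ := by
    intro k
    rw [← W.valuation_le_one_iff, map_div₀, div_le_one₀ hvρ]
  have hdec : ∀ k, ∃ (l : K) (t : W[X]), C (a i - a k) + C ρ * X = C l * t.map W.subtype ∧
      l ≠ 0 ∧ (∀ h : (a k - a i) / ρ ∈ W, t.map (residue W) = X - C (residue W ⟨_, h⟩)) ∧
      ((a k - a i) / ρ ∉ W → t.map (residue W) = 1) := by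
    intro k
    by_cases h : (a k - a i) / ρ ∈ W
    · refine ⟨ρ, X - C ⟨_, h⟩, ?_, hρ0, ?_, ?_⟩
      · rw [Polynomial.map_sub, map_X, map_C, mul_sub, ← C_mul]
        have : ρ * W.subtype ⟨_, h⟩ = a k - a i := by
          rw [W.subtype_apply]
          exact mul_div_cancel₀ _ hρ0
        rw [this]
        simp only [C_sub]
        ring
      · intro h'
        simp
      · intro h'
        exact absurd h h'
    · have h1 : v ρ < v (a k - a i) := by
        rw [hmemv] at h
        exact not_le.1 h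
      have hk0 : a k - a i ≠ 0 := by
        intro h0
        rw [h0, map_zero] at h1
        exact not_lt_zero h1
      have hk0' : a i - a k ≠ 0 := by
        intro h0
        apply hk0
        linear_combination -h0
      have h2 : v (ρ / (a i - a k)) < 1 := by
        rw [map_div₀, ← v.map_neg (a i - a k), neg_sub, div_lt_one₀ (lt_trans hvρ h1)]
        exact h1
      have h3 : ρ / (a i - a k) ∈ W := (W.valuation_le_one_iff _).1 h2.le
      refine ⟨a i - a k, 1 + C ⟨_, h3⟩ * X, ?_, hk0', ?_, ?_⟩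
      · rw [Polynomial.map_add, Polynomial.map_one, Polynomial.map_mul, map_X, map_C, mul_add,
          mul_one, ← mul_assoc, ← C_mul]
        have : (a i - a k) * W.subtype ⟨_, h3⟩ = ρ := by
          rw [W.subtype_apply]
          exact mul_div_cancel₀ _ hk0'
        rw [this]
      · intro h'
        exact absurd h' h
      · intro _
        have h4 : residue W ⟨_, h3⟩ = 0 := by
          rw [residue_eq_zero_iff, W.valuation_lt_one_iff]
          exact h2
        rw [Polynomial.map_add, Polynomial.map_one, Polynomial.map_mul, map_X, map_C, h4]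
        simp
  choose l t hlt hl0 ht1 ht2 using hdec
  set D := I.filter (fun k => (a k - a i) / ρ ∈ W) with hD
  set c : ι → ResidueField W := fun k =>
    if h : (a k - a i) / ρ ∈ W then residue W ⟨_, h⟩ else 0 with hc
  have : CharP (ResidueField W) p := charP_residue W
  -- reduction
  have hred : cop p (wpoly e D c w * Q.map (residue W)) = 0 := by
    have h1 := cop_comp_eq_zero hcop (a i) ρ hρ0
    have h2 : (wpoly e I a w * q).comp (C (a i) + C ρ * X) =
        C ((∏ k ∈ I, l k ^ (w k * e)) * β) *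
          ((∏ k ∈ I, t k ^ (w k * e)) * Q).map W.subtype := by
      unfold wpoly
      rw [mul_comp, hQ, prod_comp, Polynomial.map_mul, Polynomial.map_prod, C_mul, map_prod]
      have h3 : ∏ k ∈ I, ((X - C (a k)) ^ (w k * e)).comp (C (a i) + C ρ * X) =
          (∏ k ∈ I, C (l k ^ (w k * e))) * ∏ k ∈ I, (t k ^ (w k * e)).map W.subtype := by
        rw [← Finset.prod_mul_distrib]
        apply Finset.prod_congr rfl
        intro k _
        rw [Polynomial.map_pow, C_pow, ← mul_pow, ← hlt, pow_comp, sub_comp, X_comp, C_comp]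
        simp only [C_sub]
        ring
      rw [h3]
      ring
    rw [h2, cop_C_mul hp, mul_eq_zero] at h1
    rcases h1 with h1 | h1
    · exfalso
      rw [C_eq_zero, mul_eq_zero] at h1
      rcases h1 with h1 | h1
      · exact (Finset.prod_ne_zero_iff.2 (fun k _ => pow_ne_zero _ (hl0 k))) h1
      · exact hb0 h1
    · rw [cop_map hp, Polynomial.map_eq_zero_iff W.subtype_injective] at h1
      have h4 : cop p (((∏ k ∈ I, t k ^ (w k * e)) * Q).map (residue W)) = 0 := by
        rw [cop_map hp, h1, Polynomial.map_zero]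
      rw [Polynomial.map_mul, Polynomial.map_prod] at h4
      have h5 : ∏ k ∈ I, (t k ^ (w k * e)).map (residue W) = wpoly e D c w := by
        unfold wpoly
        rw [hD, Finset.prod_filter]
        apply Finset.prod_congr rfl
        intro k _
        rw [Polynomial.map_pow]
        split_ifs with h
        · rw [ht1 k h, hc]
          simp only [dif_pos h]
        · rw [ht2 k h, one_pow]
      rw [h5] at h4
      exact h4
  -- metric facts
  have hDmem : ∀ k, k ∈ D ↔ k ∈ I ∧ v (a k - a i) ≤ v ρ := by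
    intro k
    rw [hD, Finset.mem_filter, hmemv]
  have hckm : ∀ k ∈ D, ∀ m ∈ D, ∃ x : W, (x : K) = (a k - a m) / ρ ∧ residue W x = c k - c m := by
    intro k hk m hm
    have hk' := (Finset.mem_filter.1 hk).2
    have hm' := (Finset.mem_filter.1 hm).2
    refine ⟨⟨_, hk'⟩ - ⟨_, hm'⟩, ?_, ?_⟩
    · push_cast
      rw [← sub_div]
      congr 1
      ring
    · rw [map_sub, hc]
      simp only [dif_pos hk', dif_pos hm']
  have hne_c : ∀ k ∈ D, ∀ m ∈ D, c k ≠ c m → v (a k - a m) = v ρ := by
    intro k hk m hm hkm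
    obtain ⟨x, hx, hx2⟩ := hckm k hk m hm
    have h1 := valuation_eq_one_of_residue W (x := x) (by rw [hx2]; exact sub_ne_zero.2 hkm)
    rw [hx, map_div₀] at h1
    exact (div_eq_one_iff_eq hvρ.ne').1 h1
  have heq_c : ∀ k ∈ D, ∀ m ∈ D, c k = c m → v (a k - a m) < v ρ := by
    intro k hk m hm hkm
    obtain ⟨x, hx, hx2⟩ := hckm k hk m hm
    have h1 := valuation_lt_one_of_residue W (x := x) (by rw [hx2]; exact sub_eq_zero.2 hkm)
    rw [hx, map_div₀] at h1
    exact (div_lt_one₀ hvρ).1 h1
  rw [wpoly_fiber] at hred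
  have hFsum : ∑ d ∈ D.image c, ∑ k ∈ D with c k = d, w k = ∑ k ∈ D, w k :=
    Finset.sum_fiberwise_of_maps_to (fun k hk => Finset.mem_image_of_mem c hk) w
  refine pieceD hme hm base _ (D.image c) (fun d => ∑ k ∈ D with c k = d, w k)
    (Q.map (residue W)) rfl ?_ ?_ ?_ hQ0 ?_ ?_ hred
  · have h1 : ∀ d ∈ D.image c, ∃ k ∈ D, c k = d := by
      intro d hd
      exact Finset.mem_image.1 hd
    have : Nonempty ι := ⟨i⟩
    choose! g hg using h1
    have hginj : Set.InjOn g (D.image c) := by
      intro x hx y hy hxy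
      rw [← (hg x hx).2, ← (hg y hy).2, hxy]
    rw [← Finset.card_image_of_injOn hginj]
    apply hE ((D.image c).image g) (v ρ)
    · intro k hk
      obtain ⟨d, hd, rfl⟩ := Finset.mem_image.1 hk
      exact (Finset.mem_filter.1 (hg d hd).1).1
    · intro k hk m hm hkm
      obtain ⟨d, hd, rfl⟩ := Finset.mem_image.1 hk
      obtain ⟨e, he, rfl⟩ := Finset.mem_image.1 hm
      apply hne_c _ (hg d hd).1 _ (hg e he).1
      rw [(hg d hd).2, (hg e he).2]
      rintro rfl
      exact hkm rfl
  · intro d hd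
    obtain ⟨k, hk, rfl⟩ := Finset.mem_image.1 hd
    have hk' := (Finset.mem_filter.1 hk)
    obtain ⟨n, hn⟩ := hR i hi j hj k hk'.1 hne hk'.2
    refine ⟨n, ?_⟩
    rw [← hn, hc]
    simp only [dif_pos hk'.2]
    rfl
  · intro d hd d' hd'
    obtain ⟨k, hk, rfl⟩ := Finset.mem_image.1 hd
    obtain ⟨l, hl, rfl⟩ := Finset.mem_image.1 hd'
    obtain ⟨x, hx, hx2⟩ := hckm k hk l hl
    have hxW : (a k - a l) / (a j - a i) ∈ W := by
      rw [← hρ, ← hx]
      exact x.2
    obtain ⟨n, hn⟩ := hR2 i hi j hj k (Finset.mem_filter.1 hk).1 l (Finset.mem_filter.1 hl).1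
      hne hxW
    refine ⟨n, ?_⟩
    rw [← hn, ← hx2]
    congr 1
    exact Subtype.ext hx
  · -- multiplicities
    intro d _
    by_contra hcon
    push Not at hcon
    set E := D.filter (fun k => c k = d) with hEdef
    have hEc : 1 < E.card := by
      by_contra h1
      push Not at h1
      have h2 : ∑ k ∈ E, w k ≤ m := by
        calc ∑ k ∈ E, w k ≤ ∑ k ∈ E, m := Finset.sum_le_sum (fun k hk =>
              hw k (Finset.mem_filter.1 (Finset.mem_filter.1 hk).1).1)
          _ = E.card * m := by rw [Finset.sum_const, smul_eq_mul]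
          _ ≤ 1 * m := Nat.mul_le_mul_right _ h1
          _ = m := one_mul m
      have h3 : m * 1 ≤ m * ((Q.map (residue W)).rootMultiplicity d + 1) :=
        Nat.mul_le_mul_left _ (by omega)
      omega
    obtain ⟨⟨k, l'⟩, hkl, hklmax⟩ := Finset.exists_max_image E.offDiag
      (fun x : ι × ι => v (a x.2 - a x.1)) (by
      obtain ⟨x, hx, y, hy, hxy⟩ := Finset.one_lt_card.1 hEc
      exact ⟨(x, y), Finset.mem_offDiag.2 ⟨hx, hy, hxy⟩⟩)
    rw [Finset.mem_offDiag] at hkl
    obtain ⟨hk, hl', hkl⟩ := hkl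
    simp only at hk hl' hkl hklmax
    have hkD := (Finset.mem_filter.1 hk).1
    have hlD := (Finset.mem_filter.1 hl').1
    have hkI := ((hDmem k).1 hkD).1
    have hlI := ((hDmem l').1 hlD).1
    set σ := a l' - a k with hσ
    have hσ0 : σ ≠ 0 := by
      intro h
      exact hkl (hinj k hkI l' hlI (sub_eq_zero.1 h).symm)
    have hvσ : 0 < v σ := zero_lt_iff.2 ((v.ne_zero_iff).2 hσ0)
    have hσρ : v σ < v ρ := by
      apply heq_c l' hlD k hkD
      rw [(Finset.mem_filter.1 hl').2, (Finset.mem_filter.1 hk).2]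
    have hmx := hmax (k, l') (Finset.mem_offDiag.2 ⟨hkI, hlI, hkl⟩)
    simp only at hmx
    rw [← hσ] at hmx
    have hEI : E ⊆ I := (Finset.filter_subset _ _).trans (Finset.filter_subset _ _)
    have hP1 : ∏ m ∈ I, max (v ρ) (v (a m - a i)) ^ w m =
        v ρ ^ (∑ m ∈ E, w m) * ∏ m ∈ I \ E, max (v ρ) (v (a m - a i)) ^ w m := by
      rw [← Finset.prod_sdiff hEI, mul_comm, ← Finset.prod_pow_eq_pow_sum]
      congr 1
      apply Finset.prod_congr rfl
      intro m hm
      rw [max_eq_left ((hDmem m).1 (Finset.mem_filter.1 hm).1).2]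
    have hP2 : ∏ m ∈ I, max (v σ) (v (a m - a k)) ^ w m =
        v σ ^ (∑ m ∈ E, w m) * ∏ m ∈ I \ E, max (v ρ) (v (a m - a i)) ^ w m := by
      rw [← Finset.prod_sdiff hEI, mul_comm, ← Finset.prod_pow_eq_pow_sum]
      congr 1
      · apply Finset.prod_congr rfl
        intro m hm
        congr 1
        apply max_eq_left
        by_cases hmk : k = m
        · rw [← hmk, sub_self, map_zero]
          exact zero_le
        · exact hklmax (k, m) (Finset.mem_offDiag.2 ⟨hk, hm, hmk⟩)
      · apply Finset.prod_congr rfl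
        intro m hm
        congr 1
        rw [Finset.mem_sdiff] at hm
        by_cases hmD : m ∈ D
        · have hcm : c m ≠ c k := by
            intro h
            apply hm.2
            rw [hEdef, Finset.mem_filter]
            exact ⟨hmD, by rw [h]; exact (Finset.mem_filter.1 hk).2⟩
          rw [hne_c m hmD k hkD hcm, max_eq_right hσρ.le,
            max_eq_left ((hDmem m).1 hmD).2]
        · have h1 : v ρ < v (a m - a i) := by
            by_contra h
            exact hmD ((hDmem m).2 ⟨hm.1, not_lt.1 h⟩)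
          have h2 : v (a k - a i) < v (a m - a i) := lt_of_le_of_lt ((hDmem k).1 hkD).2 h1
          have h3 : v (a m - a k) = v (a m - a i) := by
            have : a m - a k = (a m - a i) - (a k - a i) := by ring
            rw [this]
            rw [Valuation.map_sub_swap]
            exact Valuation.map_sub_eq_of_lt_right v h2
          rw [h3, max_eq_right h1.le, max_eq_right (hσρ.trans h1).le]
    have hRpos : 0 < ∏ m ∈ I \ E, max (v ρ) (v (a m - a i)) ^ w m := by
      rw [zero_lt_iff, Finset.prod_ne_zero_iff]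
      intro m _
      exact pow_ne_zero _ (lt_of_lt_of_le hvρ (le_max_left _ _)).ne'
    rw [hP1, hP2, ← hb] at hmx
    have hkmem := (Finset.mem_filter.1 hkD).2
    have hck : residue W ⟨_, hkmem⟩ = d := by
      have h1 := (Finset.mem_filter.1 hk).2
      rw [← h1, hc]
      simp only [dif_pos hkmem]
    have hchild := child_bound W (b := β) hQ0 ⟨_, hkmem⟩ (σ / ρ) d hck
    have hcomp : (C β * Q.map W.subtype).comp
        (C (((⟨_, hkmem⟩ : W) : K)) + C (σ / ρ) * X) = q.comp (C (a k) + C σ * X) := by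
      rw [← hQ, comp_assoc]
      congr 1
      simp only [add_comp, C_comp, mul_comp, X_comp, mul_add, ← mul_assoc, ← C_mul]
      rw [mul_div_cancel₀ _ hρ0, mul_div_cancel₀ _ hρ0, ← add_assoc, ← C_add]
      congr 3
      ring
    rw [hcomp] at hchild
    have hts : v σ = v (σ / ρ) * v ρ := by
      rw [← map_mul, div_mul_cancel₀ _ hρ0]
    have ht01 : v (σ / ρ) < 1 := by
      rw [map_div₀]
      exact (div_lt_one₀ hvρ).2 hσρ
    have ht0 : 0 < v (σ / ρ) := zero_lt_iff.2 ((v.ne_zero_iff).2 (div_ne_zero hσ0 hρ0))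
    rw [hts] at hmx
    have := child_arithW hvb ht0 ht01 hvρ hRpos hchild hmx
    omega
  · -- degree
    rw [hFsum]
    by_contra hcon
    push Not at hcon
    have hdegle : (Q.map (residue W)).natDegree ≤ q.natDegree := by
      have h1 : (q.comp (C (a i) + C ρ * X)).natDegree ≤ q.natDegree := by
        refine natDegree_comp_le.trans ?_
        have h2 : (C (a i) + C ρ * X).natDegree ≤ 1 := by compute_degree
        calc q.natDegree * (C (a i) + C ρ * X).natDegree ≤ q.natDegree * 1 :=
              Nat.mul_le_mul_left _ h2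
          _ = q.natDegree := mul_one _
      rw [hQ, natDegree_C_mul hb0, natDegree_map_eq_of_injective W.subtype_injective] at h1
      exact natDegree_map_le.trans h1
    have hDI : D ≠ I := by
      intro h
      rw [h] at hcon
      have h1 : m * ((Q.map (residue W)).natDegree + 1) ≤ m * (q.natDegree + 1) :=
        Nat.mul_le_mul_left _ (by omega)
      omega
    have hDsub : D ⊆ I := Finset.filter_subset _ _
    obtain ⟨l', hl', hlmin⟩ := Finset.exists_min_image (I \ D) (fun m => v (a m - a i)) (by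
      rw [Finset.sdiff_nonempty]
      intro h
      exact hDI (Finset.Subset.antisymm hDsub h))
    rw [Finset.mem_sdiff] at hl'
    have hout : ∀ m, m ∈ I → m ∉ D → v ρ < v (a m - a i) := by
      intro m hmI hmD
      by_contra h
      exact hmD ((hDmem m).2 ⟨hmI, not_lt.1 h⟩)
    set σ := a l' - a i with hσ
    have hρσ : v ρ < v σ := hout l' hl'.1 hl'.2
    have hvσ : 0 < v σ := lt_trans hvρ hρσ
    have hil : i ≠ l' := by
      rintro rfl
      rw [hσ, sub_self, map_zero] at hvσ
      exact lt_irrefl _ hvσ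
    have hmx := hmax (i, l') (Finset.mem_offDiag.2 ⟨hi, hl'.1, hil⟩)
    simp only at hmx
    rw [← hσ] at hmx
    have hP1 : ∏ m ∈ I, max (v ρ) (v (a m - a i)) ^ w m =
        v ρ ^ (∑ m ∈ D, w m) * ∏ m ∈ I \ D, max (v ρ) (v (a m - a i)) ^ w m := by
      rw [← Finset.prod_sdiff hDsub, mul_comm, ← Finset.prod_pow_eq_pow_sum]
      congr 1
      apply Finset.prod_congr rfl
      intro m hm
      rw [max_eq_left ((hDmem m).1 hm).2]
    have hP2 : ∏ m ∈ I, max (v σ) (v (a m - a i)) ^ w m =
        v σ ^ (∑ m ∈ D, w m) * ∏ m ∈ I \ D, max (v ρ) (v (a m - a i)) ^ w m := by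
      rw [← Finset.prod_sdiff hDsub, mul_comm, ← Finset.prod_pow_eq_pow_sum]
      congr 1
      · apply Finset.prod_congr rfl
        intro m hm
        rw [max_eq_left (((hDmem m).1 hm).2.trans hρσ.le)]
      · apply Finset.prod_congr rfl
        intro m hm
        rw [max_eq_right (hlmin m hm)]
        rw [Finset.mem_sdiff] at hm
        rw [max_eq_right (hout m hm.1 hm.2).le]
    have hRpos : 0 < ∏ m ∈ I \ D, max (v ρ) (v (a m - a i)) ^ w m := by
      rw [zero_lt_iff, Finset.prod_ne_zero_iff]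
      intro m _
      exact pow_ne_zero _ (lt_of_lt_of_le hvρ (le_max_left _ _)).ne'
    rw [hP1, hP2, ← hb] at hmx
    have hpar := parent_bound W (b := β) hQ0 (σ / ρ)
    have hcomp : (C β * Q.map W.subtype).comp (C (σ / ρ) * X) = q.comp (C (a i) + C σ * X) := by
      rw [← hQ, comp_assoc]
      congr 1
      simp only [add_comp, C_comp, mul_comp, X_comp, ← mul_assoc, ← C_mul]
      rw [mul_div_cancel₀ _ hρ0]
    rw [hcomp] at hpar
    have hts : v σ = v (σ / ρ) * v ρ := by
      rw [← map_mul, div_mul_cancel₀ _ hρ0]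
    have ht1 : 1 < v (σ / ρ) := by
      rw [map_div₀]
      exact (one_lt_div₀ hvρ).2 hρσ
    rw [hts] at hmx
    have := parent_arithW hvb ht1 hvρ hRpos hpar hmx
    omega

end

end MPadc574Q
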