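import Mathlib
import Pool.Agent.Lib.MP_adc574_ag.Base3

/-! # Three finite branch points: the purely holomorphic case -/

namespace MPadc574Q

open Polynomial MPadc574

noncomputable section

variable {p : ℕ} [Fact p.Prime] {κ : Type*} [Field κ] [CharP κ p]

theorem exists_derivative_le {v : κ[X]} (h : cop p v = 0) :
    ∃ w : κ[X], v = derivative w ∧ w.natDegree ≤ v.natDegree + 1 := by
  have hp : 0 < p := (Fact.out : p.Prime).pos
  rw [cop_eq_zero_iff hp] at h
  refine ⟨∑ m ∈ Finset.range (v.natDegree + 1), C (v.coeff m / ((m : κ) + 1)) * X ^ (m + 1),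
    ?_, ?_⟩
  · rw [derivative_sum]
    conv_lhs => rw [v.as_sum_range_C_mul_X_pow]
    apply Finset.sum_congr rfl
    intro m _
    rw [derivative_C_mul_X_pow]
    simp only [Nat.add_sub_cancel, Nat.cast_add, Nat.cast_one]
    by_cases h0 : ((m : κ) + 1) = 0
    · have h1 : ((m + 1 : ℕ) : κ) = 0 := by push_cast; exact h0
      rw [CharP.cast_eq_zero_iff κ p] at h1
      obtain ⟨k, hk⟩ := h1
      have hk0 : k ≠ 0 := by
        rintro rfl
        simp at hk
      obtain ⟨i, rfl⟩ := Nat.exists_eq_succ_of_ne_zero hk0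
      have h2 : v.coeff m = 0 := by
        have := h i
        rw [Nat.succ_eq_add_one] at hk
        rw [← hk, Nat.add_sub_cancel] at this
        exact this
      rw [h2]
      simp
    · rw [div_mul_cancel₀ _ h0]
  · apply natDegree_sum_le_of_forall_le
    intro m hm
    rw [Finset.mem_range] at hm
    refine (natDegree_C_mul_X_pow_le _ _).trans ?_
    omega

omit [Fact p.Prime] in
theorem pow_dvd_sub_eval {R : κ[X]} (hR : derivative R ≠ 0) {c : κ} {n : ℕ} (hn : n < p)
    (h : (X - C c) ^ n ∣ derivative R) : (X - C c) ^ (n + 1) ∣ R - C (R.eval c) := by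
  set S := R - C (R.eval c) with hS
  have hS' : derivative S = derivative R := by rw [hS]; simp
  have hS0 : S ≠ 0 := by
    intro h0
    rw [h0, derivative_zero] at hS'
    exact hR hS'.symm
  have hroot : S.IsRoot c := by
    rw [IsRoot, hS]
    simp
  have hk : 0 < S.rootMultiplicity c := (rootMultiplicity_pos hS0).2 hroot
  have h1 : n + 1 ≤ S.rootMultiplicity c := by
    by_cases h2 : ((S.rootMultiplicity c : ℕ) : κ) = 0
    · rw [CharP.cast_eq_zero_iff κ p] at h2
      have := Nat.le_of_dvd hk h2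
      omega
    · have h3 := derivative_rootMultiplicity_of_root_of_mem_nonZeroDivisors hroot
        (mem_nonZeroDivisors_of_ne_zero h2)
      rw [hS'] at h3
      have h4 : n ≤ (derivative R).rootMultiplicity c := (le_rootMultiplicity_iff hR).2 h
      omega
  exact (pow_dvd_pow _ h1).trans (pow_rootMultiplicity_dvd S c)

theorem pow_p_dvd_expand (r : κ[X]) (c : κ) :
    (X - C c) ^ p ∣ expand κ p r - C (r.eval (c ^ p)) := by
  have h1 : (X - C (c ^ p)) ∣ r - C (r.eval (c ^ p)) := by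
    rw [dvd_iff_isRoot]
    simp
  obtain ⟨g, hg⟩ := h1
  have h2 : expand κ p r - C (r.eval (c ^ p)) = expand κ p (r - C (r.eval (c ^ p))) := by
    rw [map_sub, expand_C]
  rw [h2, hg, map_mul, map_sub, expand_X, expand_C, C_pow, ← sub_pow_char]
  exact dvd_mul_right _ _

theorem dual_three {m e w1 w2 w3 : ℕ} (hme : m * e + 1 = p) (h1 : w1 < m) (h2 : w2 < m)
    (h3 : w3 < m) (hS : 2 * m ≤ w1 + w2 + w3) {a b c : κ} (hab : a ≠ b) (hac : a ≠ c)
    (hbc : b ≠ c) {q : κ[X]} (hq : q ≠ 0) (hdeg : q.natDegree ≤ 1) :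
    cop p ((X - C a) ^ (w1 * e) * (X - C b) ^ (w2 * e) * (X - C c) ^ (w3 * e) * q) ≠ 0 := by
  intro hcop
  have hp : 1 < p := (Fact.out : p.Prime).one_lt
  set P : κ[X] := (X - C a) ^ (w1 * e) * (X - C b) ^ (w2 * e) * (X - C c) ^ (w3 * e) with hP
  have hP0 : P ≠ 0 := by
    rw [hP]
    exact mul_ne_zero (mul_ne_zero (pow_ne_zero _ (X_sub_C_ne_zero _))
      (pow_ne_zero _ (X_sub_C_ne_zero _))) (pow_ne_zero _ (X_sub_C_ne_zero _))
  obtain ⟨R, hR, hRdeg⟩ := exists_derivative_le hcop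
  have hR0 : derivative R ≠ 0 := by
    rw [← hR]
    exact mul_ne_zero hP0 hq
  have hPdeg : P.natDegree = w1 * e + w2 * e + w3 * e := by
    rw [hP, natDegree_mul (mul_ne_zero (pow_ne_zero _ (X_sub_C_ne_zero _))
      (pow_ne_zero _ (X_sub_C_ne_zero _))) (pow_ne_zero _ (X_sub_C_ne_zero _)),
      natDegree_mul (pow_ne_zero _ (X_sub_C_ne_zero _)) (pow_ne_zero _ (X_sub_C_ne_zero _)),
      natDegree_pow, natDegree_pow, natDegree_pow, natDegree_X_sub_C, natDegree_X_sub_C,
      natDegree_X_sub_C, mul_one, mul_one, mul_one]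
  rw [natDegree_mul hP0 hq, hPdeg] at hRdeg
  have hle : ∀ w, w < m → w * e < p := by
    intro w hw
    have : w * e ≤ m * e := Nat.mul_le_mul_right _ hw.le
    omega
  have hda : (X - C a) ^ (w1 * e + 1) ∣ R - C (R.eval a) := by
    apply pow_dvd_sub_eval hR0 (hle _ h1)
    rw [← hR, hP, mul_assoc, mul_assoc]
    exact dvd_mul_right _ _
  have hdb : (X - C b) ^ (w2 * e + 1) ∣ R - C (R.eval b) := by
    apply pow_dvd_sub_eval hR0 (hle _ h2)
    rw [← hR, hP]
    exact Dvd.intro_left ((X - C a) ^ (w1 * e) * (X - C c) ^ (w3 * e) * q) (by ring)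
  have hdc : (X - C c) ^ (w3 * e + 1) ∣ R - C (R.eval c) := by
    apply pow_dvd_sub_eval hR0 (hle _ h3)
    rw [← hR, hP]
    exact Dvd.intro_left ((X - C a) ^ (w1 * e) * (X - C b) ^ (w2 * e) * q) (by ring)
  have hinj : ∀ {x y : κ}, x ≠ y → x ^ p - y ^ p ≠ 0 := by
    intro x y hxy h
    rw [← sub_pow_char] at h
    exact hxy (sub_eq_zero.1 (pow_eq_zero_iff (by omega : p ≠ 0) |>.1 h))
  -- interpolation
  obtain ⟨r, hr1, hr2, hr3, hrd⟩ : ∃ r : κ[X], r.eval (a ^ p) = R.eval a ∧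
      r.eval (b ^ p) = R.eval b ∧ r.eval (c ^ p) = R.eval c ∧ r.natDegree ≤ 2 := by
    set β := (R.eval b - R.eval a) / (b ^ p - a ^ p) with hβ
    set γ := (R.eval c - R.eval a - β * (c ^ p - a ^ p)) / ((c ^ p - a ^ p) * (c ^ p - b ^ p))
      with hγ
    have e1 : β * (b ^ p - a ^ p) = R.eval b - R.eval a := div_mul_cancel₀ _ (hinj hab.symm)
    have e2 : γ * ((c ^ p - a ^ p) * (c ^ p - b ^ p)) =
        R.eval c - R.eval a - β * (c ^ p - a ^ p) :=
      div_mul_cancel₀ _ (mul_ne_zero (hinj hac.symm) (hinj hbc.symm))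
    refine ⟨C (R.eval a) + C β * (X - C (a ^ p)) + C γ * ((X - C (a ^ p)) * (X - C (b ^ p))),
      ?_, ?_, ?_, ?_⟩
    · simp
    · simp only [eval_add, eval_mul, eval_sub, eval_X, eval_C]
      linear_combination e1
    · simp only [eval_add, eval_mul, eval_sub, eval_X, eval_C]
      linear_combination e2
    · compute_degree
  set D := R - expand κ p r with hD
  have hDd : ∀ (x : κ) (n : ℕ), n + 1 ≤ p → r.eval (x ^ p) = R.eval x →
      (X - C x) ^ (n + 1) ∣ R - C (R.eval x) → (X - C x) ^ (n + 1) ∣ D := by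
    intro x n hn hx hdvd
    have h4 := (pow_dvd_pow (X - C x) hn).trans (pow_p_dvd_expand (p := p) r x)
    rw [hx] at h4
    have h5 : D = (R - C (R.eval x)) - (expand κ p r - C (R.eval x)) := by
      rw [hD]
      ring
    rw [h5]
    exact dvd_sub hdvd h4
  have hDa := hDd a (w1 * e) (hle _ h1) hr1 hda
  have hDb := hDd b (w2 * e) (hle _ h2) hr2 hdb
  have hDc := hDd c (w3 * e) (hle _ h3) hr3 hdc
  have hcop2 : ∀ {x y : κ} (n k : ℕ), x ≠ y → IsCoprime ((X - C x) ^ n) ((X - C y) ^ k) := by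
    intro x y n k hxy
    exact (isCoprime_X_sub_C_of_isUnit_sub (sub_ne_zero.2 hxy).isUnit).pow
  have hDall : (X - C a) ^ (w1 * e + 1) * (X - C b) ^ (w2 * e + 1) * (X - C c) ^ (w3 * e + 1) ∣ D := by
    apply IsCoprime.mul_dvd
    · exact IsCoprime.mul_left (hcop2 _ _ hac) (hcop2 _ _ hbc)
    · exact IsCoprime.mul_dvd (hcop2 _ _ hab) hDa hDb
    · exact hDc
  have hSe : 2 * m * e ≤ w1 * e + w2 * e + w3 * e := by
    rw [← add_mul, ← add_mul]
    exact Nat.mul_le_mul_right _ hS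
  have h2me : 2 * m * e = 2 * (m * e) := by ring
  have hDdeg : D.natDegree ≤ w1 * e + w2 * e + w3 * e + 2 := by
    rw [hD]
    refine (natDegree_sub_le _ _).trans (max_le (by omega) ?_)
    rw [natDegree_expand]
    have : r.natDegree * p ≤ 2 * p := Nat.mul_le_mul_right _ hrd
    omega
  have hD0 : D = 0 := by
    apply eq_zero_of_dvd_of_natDegree_lt hDall
    rw [natDegree_mul (mul_ne_zero (pow_ne_zero _ (X_sub_C_ne_zero _))
      (pow_ne_zero _ (X_sub_C_ne_zero _))) (pow_ne_zero _ (X_sub_C_ne_zero _)),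
      natDegree_mul (pow_ne_zero _ (X_sub_C_ne_zero _)) (pow_ne_zero _ (X_sub_C_ne_zero _)),
      natDegree_pow, natDegree_pow, natDegree_pow, natDegree_X_sub_C, natDegree_X_sub_C,
      natDegree_X_sub_C, mul_one, mul_one, mul_one]
    omega
  apply hR0
  rw [hD, sub_eq_zero] at hD0
  rw [hD0, derivative_expand, CharP.cast_eq_zero, zero_mul, mul_zero]

end

end MPadc574Q
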