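import Mathlib
import Pool.Agent.Lib.MP_adc574_ag.Base3

/-! # Counting lemmas for quartic character sums -/

namespace MPadc574Q

open Polynomial MPadc574

noncomputable section

variable {p : ℕ} [Fact p.Prime]

/-- Parity of a set with an involution that has two prescribed fixed points. -/
theorem even_of_invol {α : Type*} [DecidableEq α] (U : Finset α) (ι : α → α)
    (h1 : ∀ x ∈ U, ι x ∈ U) (h2 : ∀ x ∈ U, ι (ι x) = x) (u v : α) (huv : u ≠ v)
    (hu : ι u = u) (hv : ι v = v) (hfix : ∀ x ∈ U, ι x = x → x = u ∨ x = v)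
    (hUV : u ∈ U ↔ v ∈ U) : Even U.card := by
  have key : ∀ V : Finset α, (∀ x ∈ V, ι x ∈ V) → (∀ x ∈ V, ι (ι x) = x) →
      (∀ x ∈ V, ι x ≠ x) → Even V.card := by
    intro V g1 g2 g3
    have h := Finset.sum_involution (s := V) (f := fun _ => (1 : ZMod 2)) (fun x _ => ι x)
      (fun _ _ => by decide) (fun x hx _ => g3 x hx) (fun x hx => g1 x hx) (fun x hx => g2 x hx)
    rw [Finset.sum_const, nsmul_eq_mul, mul_one] at h
    exact (ZMod.natCast_eq_zero_iff_even).1 h
  by_cases hmem : u ∈ U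
  · have hv' := hUV.1 hmem
    have h3 : Even ((U.erase u).erase v).card := by
      apply key
      · intro x hx
        rw [Finset.mem_erase, Finset.mem_erase] at hx ⊢
        refine ⟨?_, ?_, h1 x hx.2.2⟩
        · intro h
          apply hx.1
          rw [← h2 x hx.2.2, h, hv]
        · intro h
          apply hx.2.1
          rw [← h2 x hx.2.2, h, hu]
      · intro x hx
        rw [Finset.mem_erase, Finset.mem_erase] at hx
        exact h2 x hx.2.2
      · intro x hx h
        rw [Finset.mem_erase, Finset.mem_erase] at hx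
        rcases hfix x hx.2.2 h with h4 | h4
        · exact hx.2.1 h4
        · exact hx.1 h4
    have h4 : v ∈ U.erase u := Finset.mem_erase.2 ⟨huv.symm, hv'⟩
    have h5 := Finset.card_erase_of_mem h4
    have h6 := Finset.card_erase_of_mem hmem
    have h7 : 0 < (U.erase u).card := Finset.card_pos.2 ⟨v, h4⟩
    have h8 : U.card = ((U.erase u).erase v).card + 2 := by omega
    rw [h8]
    exact h3.add even_two
  · apply key U h1 h2
    intro x hx h
    rcases hfix x hx h with h4 | h4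
    · rw [h4] at hx
      exact hmem hx
    · rw [h4] at hx
      exact hmem (hUV.2 hx)

theorem natCast_inj_of_lt {a b : ℕ} (ha : a < p) (hb : b < p) (h : (a : ZMod p) = b) : a = b := by
  have h1 := congrArg ZMod.val h
  rwa [ZMod.val_natCast_of_lt ha, ZMod.val_natCast_of_lt hb] at h1

/-- The four classes. -/
theorem four_classes (hp4 : p % 4 = 1) {I : ZMod p} (hI : I ^ 2 = -1) (T : Finset (ZMod p))
    (hT : T.card < p) (ω : ZMod p → ZMod p) (hω : ∀ x ∈ T, ω x ^ 4 = 1)
    (hs1 : ∑ x ∈ T, ω x = 0) (hs3 : ∑ x ∈ T, ω x ^ 3 = 0) :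
    T.card = 2 * ((T.filter (fun x => ω x = 1)).card + (T.filter (fun x => ω x = I)).card) ∧
    ∑ x ∈ T, ω x ^ 2 =
      2 * (((T.filter (fun x => ω x = 1)).card : ZMod p) - ((T.filter (fun x => ω x = I)).card)) := by
  classical
  have h2 : (2 : ZMod p) ≠ 0 := by
    intro h
    have h6 : ((2 : ℕ) : ZMod p) = 0 := by exact_mod_cast h
    rw [CharP.cast_eq_zero_iff (ZMod p) p] at h6
    have := (Nat.prime_dvd_prime_iff_eq (Fact.out : p.Prime) Nat.prime_two).1 h6
    omega
  have hI0 : I ≠ 0 := by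
    rintro rfl
    norm_num at hI
  have hI4 : I ^ 4 = 1 := by
    linear_combination (I ^ 2 - 1) * hI
  have h1m : (1 : ZMod p) ≠ -1 := by
    intro h
    apply h2
    linear_combination h
  have h1I : (1 : ZMod p) ≠ I := by
    intro h
    rw [← h] at hI
    apply h1m
    linear_combination hI
  have h1I' : (1 : ZMod p) ≠ -I := by
    intro h
    have : I = -1 := by linear_combination h
    rw [this] at hI
    apply h1m
    linear_combination hI
  have hmI : (-1 : ZMod p) ≠ I := by
    intro h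
    rw [← h] at hI
    apply h1m
    linear_combination hI
  have hmI' : (-1 : ZMod p) ≠ -I := by
    intro h
    apply h1I
    linear_combination -h
  have hII : I ≠ -I := by
    intro h
    have : (2 : ZMod p) * I = 0 := by linear_combination h
    rcases mul_eq_zero.1 this with h3 | h3
    · exact h2 h3
    · exact hI0 h3
  have hfour : ∀ x ∈ T, ω x = 1 ∨ ω x = -1 ∨ ω x = I ∨ ω x = -I := by
    intro x hx
    have h3 : (ω x - 1) * ((ω x + 1) * ((ω x - I) * (ω x + I))) = 0 := by
      linear_combination hω x hx - (ω x ^ 2 - 1) * hI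
    rcases mul_eq_zero.1 h3 with h4 | h4
    · exact Or.inl (sub_eq_zero.1 h4)
    rcases mul_eq_zero.1 h4 with h4 | h4
    · exact Or.inr (Or.inl (eq_neg_of_add_eq_zero_left h4))
    rcases mul_eq_zero.1 h4 with h4 | h4
    · exact Or.inr (Or.inr (Or.inl (sub_eq_zero.1 h4)))
    · exact Or.inr (Or.inr (Or.inr (eq_neg_of_add_eq_zero_left h4)))
  set n0 := (T.filter (fun x => ω x = 1)).card with hn0
  set n1 := (T.filter (fun x => ω x = I)).card with hn1
  set n2 := (T.filter (fun x => ω x = -1)).card with hn2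
  set n3 := (T.filter (fun x => ω x = -I)).card with hn3
  have hsum : ∀ f : ZMod p → ZMod p, ∑ x ∈ T, f (ω x) =
      n0 * f 1 + n1 * f I + n2 * f (-1) + n3 * f (-I) := by
    intro f
    have h3 : ∀ x ∈ T, f (ω x) = (if ω x = 1 then f 1 else 0) + (if ω x = I then f I else 0) +
        (if ω x = -1 then f (-1) else 0) + (if ω x = -I then f (-I) else 0) := by
      intro x hx
      rcases hfour x hx with h | h | h | h
      · rw [h, if_pos rfl, if_neg h1I, if_neg h1m, if_neg h1I']
        ring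
      · rw [h, if_neg h1m.symm, if_neg hmI, if_pos rfl, if_neg hmI']
        ring
      · rw [h, if_neg h1I.symm, if_pos rfl, if_neg hmI.symm, if_neg hII]
        ring
      · rw [h, if_neg h1I'.symm, if_neg hII.symm, if_neg hmI'.symm, if_pos rfl]
        ring
    rw [Finset.sum_congr rfl h3, Finset.sum_add_distrib, Finset.sum_add_distrib,
      Finset.sum_add_distrib, ← Finset.sum_filter, ← Finset.sum_filter, ← Finset.sum_filter,
      ← Finset.sum_filter, Finset.sum_const, Finset.sum_const, Finset.sum_const,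
      Finset.sum_const, nsmul_eq_mul, nsmul_eq_mul, nsmul_eq_mul, nsmul_eq_mul]
  have e1 : ∑ x ∈ T, ω x = n0 * 1 + n1 * I + n2 * (-1) + n3 * (-I) := hsum (fun z => z)
  have e3 : ∑ x ∈ T, ω x ^ 3 = n0 * 1 ^ 3 + n1 * I ^ 3 + n2 * (-1) ^ 3 + n3 * (-I) ^ 3 :=
    hsum (fun z => z ^ 3)
  have e2 : ∑ x ∈ T, ω x ^ 2 = n0 * 1 ^ 2 + n1 * I ^ 2 + n2 * (-1) ^ 2 + n3 * (-I) ^ 2 :=
    hsum (fun z => z ^ 2)
  rw [hs1] at e1
  rw [hs3] at e3
  have hI3 : I ^ 3 = -I := by linear_combination I * hI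
  have d02 : (n0 : ZMod p) = n2 := by
    have : (2 : ZMod p) * ((n0 : ZMod p) - n2) = 0 := by
      linear_combination -e1 - e3 - (n1 - n3 : ZMod p) * hI3
    rcases mul_eq_zero.1 this with h3 | h3
    · exact absurd h3 h2
    · exact sub_eq_zero.1 h3
  have d13 : (n1 : ZMod p) = n3 := by
    have : ((2 : ZMod p) * I) * ((n1 : ZMod p) - n3) = 0 := by
      linear_combination -e1 + e3 + (n1 - n3 : ZMod p) * hI3
    rcases mul_eq_zero.1 this with h3 | h3
    · rcases mul_eq_zero.1 h3 with h4 | h4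
      · exact absurd h4 h2
      · exact absurd h4 hI0
    · exact sub_eq_zero.1 h3
  have c0 : n0 ≤ T.card := Finset.card_filter_le _ _
  have c1 : n1 ≤ T.card := Finset.card_filter_le _ _
  have c2 : n2 ≤ T.card := Finset.card_filter_le _ _
  have c3 : n3 ≤ T.card := Finset.card_filter_le _ _
  have g02 := natCast_inj_of_lt (by omega) (by omega) d02
  have g13 := natCast_inj_of_lt (by omega) (by omega) d13
  have hcard : T.card = n0 + n1 + n2 + n3 := by
    have h3 : T = ((T.filter (fun x => ω x = 1)) ∪ (T.filter (fun x => ω x = I))) ∪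
        ((T.filter (fun x => ω x = -1)) ∪ (T.filter (fun x => ω x = -I))) := by
      ext x
      simp only [Finset.mem_union, Finset.mem_filter]
      constructor
      · intro hx
        rcases hfour x hx with h | h | h | h <;> simp [h, hx]
      · rintro ((h | h) | (h | h)) <;> exact h.1
    conv_lhs => rw [h3]
    rw [Finset.card_union_of_disjoint, Finset.card_union_of_disjoint,
      Finset.card_union_of_disjoint]
    · omega
    · rw [Finset.disjoint_left]
      intro x hx hx'
      rw [Finset.mem_filter] at hx hx'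
      exact hmI' (hx.2 ▸ hx'.2)
    · rw [Finset.disjoint_left]
      intro x hx hx'
      rw [Finset.mem_filter] at hx hx'
      exact h1I (hx.2 ▸ hx'.2)
    · rw [Finset.disjoint_left]
      intro x hx hx'
      rw [Finset.mem_union, Finset.mem_filter, Finset.mem_filter] at hx hx'
      rcases hx with hx | hx <;> rcases hx' with hx' | hx'
      · exact h1m (hx.2 ▸ hx'.2)
      · exact h1I' (hx.2 ▸ hx'.2)
      · exact hmI.symm (hx.2 ▸ hx'.2)
      · exact hII (hx.2 ▸ hx'.2)
  refine ⟨by omega, ?_⟩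
  rw [e2, ← d02, ← d13]
  linear_combination (2 * (n1 : ZMod p)) * hI

/-- Case A: an involution preserving `ω`. -/
theorem caseA {e : ℕ} (he : 4 * e + 1 = p) (T : Finset (ZMod p))
    (hT : T.card + 3 = p) (ω σ τ : ZMod p → ZMod p) (hω : ∀ x ∈ T, ω x ^ 4 = 1)
    (hσ : ∀ x ∈ T, σ x ∈ T) (hσσ : ∀ x ∈ T, σ (σ x) = x) (hσω : ∀ x ∈ T, ω (σ x) = ω x ^ 3)
    (hτ : ∀ x ∈ T, τ x ∈ T) (hττ : ∀ x ∈ T, τ (τ x) = x) (hτω : ∀ x ∈ T, ω (τ x) = ω x)
    (u v : ZMod p) (huT : u ∈ T) (hvT : v ∈ T) (huv : u ≠ v) (hu : τ u = u) (hv : τ v = v)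
    (hfix : ∀ x ∈ T, τ x = x → x = u ∨ x = v) (hωuv : ω u = ω v) : ∑ x ∈ T, ω x ≠ 0 := by
  classical
  intro h0
  have hp4 : p % 4 = 1 := by omega
  obtain ⟨I, hI⟩ : IsSquare (-1 : ZMod p) := ZMod.exists_sq_eq_neg_one_iff.2 (by omega)
  have hI' : I ^ 2 = -1 := by rw [hI]; ring
  have h3 : ∑ x ∈ T, ω x ^ 3 = 0 := by
    rw [← h0, ← Finset.sum_congr rfl hσω]
    apply Finset.sum_nbij' σ σ hσ hσ hσσ hσσ
    intro x _
    rfl
  obtain ⟨g1, -⟩ := four_classes hp4 hI' T (by omega) ω hω h0 h3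
  have h4 : (T.filter (fun x => ω x = 1)).card + (T.filter (fun x => ω x = I)).card =
      (T.filter (fun x => ω x = 1 ∨ ω x = I)).card := by
    rw [Finset.filter_or, Finset.card_union_of_disjoint]
    rw [Finset.disjoint_left]
    intro x hx hx'
    rw [Finset.mem_filter] at hx hx'
    have h5 : (1 : ZMod p) = I := hx.2 ▸ hx'.2
    rw [← h5] at hI'
    have h6 : ((2 : ℕ) : ZMod p) = 0 := by
      push_cast
      linear_combination hI'
    rw [CharP.cast_eq_zero_iff (ZMod p) p] at h6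
    have := (Nat.prime_dvd_prime_iff_eq (Fact.out : p.Prime) Nat.prime_two).1 h6
    omega
  rw [h4] at g1
  have h5 : Even (T.filter (fun x => ω x = 1 ∨ ω x = I)).card := by
    apply even_of_invol _ τ _ _ u v huv hu hv
    · intro x hx
      exact hfix x (Finset.mem_filter.1 hx).1
    · rw [Finset.mem_filter, Finset.mem_filter, hωuv]
      simp [huT, hvT]
    · intro x hx
      rw [Finset.mem_filter] at hx ⊢
      rw [hτω x hx.1]
      exact ⟨hτ x hx.1, hx.2⟩
    · intro x hx
      exact hττ x (Finset.mem_filter.1 hx).1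
  obtain ⟨k, hk⟩ := h5
  omega

/-- Case B: an involution inverting `ω`. -/
theorem caseB {e : ℕ} (he : 4 * e + 1 = p) (he0 : Even e) (T : Finset (ZMod p))
    (hT : T.card + 3 = p) (ω σ : ZMod p → ZMod p) (hω : ∀ x ∈ T, ω x ^ 4 = 1)
    (hσ : ∀ x ∈ T, σ x ∈ T) (hσσ : ∀ x ∈ T, σ (σ x) = x) (hσω : ∀ x ∈ T, ω (σ x) = ω x ^ 3)
    (hs2 : ∑ x ∈ T, ω x ^ 2 = -2)
    (u v : ZMod p) (huT : u ∈ T) (hvT : v ∈ T) (huv : u ≠ v) (hu : σ u = u) (hv : σ v = v)
    (hfix : ∀ x ∈ T, σ x = x → x = u ∨ x = v) (hωuv : ω u = ω v) : ∑ x ∈ T, ω x ≠ 0 := by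
  classical
  intro h0
  have hp4 : p % 4 = 1 := by omega
  obtain ⟨I, hI⟩ : IsSquare (-1 : ZMod p) := ZMod.exists_sq_eq_neg_one_iff.2 (by omega)
  have hI' : I ^ 2 = -1 := by rw [hI]; ring
  have h3 : ∑ x ∈ T, ω x ^ 3 = 0 := by
    rw [← h0, ← Finset.sum_congr rfl hσω]
    apply Finset.sum_nbij' σ σ hσ hσ hσσ hσσ
    intro x _
    rfl
  obtain ⟨g1, g2⟩ := four_classes hp4 hI' T (by omega) ω hω h0 h3
  rw [hs2] at g2
  set n0 := (T.filter (fun x => ω x = 1)).card with hn0
  set n1 := (T.filter (fun x => ω x = I)).card with hn1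
  have h2 : (2 : ZMod p) ≠ 0 := by
    intro h
    have h6 : ((2 : ℕ) : ZMod p) = 0 := by exact_mod_cast h
    rw [CharP.cast_eq_zero_iff (ZMod p) p] at h6
    have := (Nat.prime_dvd_prime_iff_eq (Fact.out : p.Prime) Nat.prime_two).1 h6
    omega
  have h4 : ((n1 : ℕ) : ZMod p) = ((n0 + 1 : ℕ) : ZMod p) := by
    push_cast
    have : (2 : ZMod p) * ((n1 : ZMod p) - (n0 + 1)) = 0 := by linear_combination g2
    rcases mul_eq_zero.1 this with h5 | h5
    · exact absurd h5 h2
    · exact sub_eq_zero.1 h5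
  have h5 := natCast_inj_of_lt (by omega) (by omega) h4
  have h6 : Even n0 := by
    rw [hn0]
    apply even_of_invol _ σ _ _ u v huv hu hv
    · intro x hx
      exact hfix x (Finset.mem_filter.1 hx).1
    · rw [Finset.mem_filter, Finset.mem_filter, hωuv]
      simp [huT, hvT]
    · intro x hx
      rw [Finset.mem_filter] at hx ⊢
      rw [hσω x hx.1, hx.2]
      exact ⟨hσ x hx.1, one_pow _⟩
    · intro x hx
      exact hσσ x (Finset.mem_filter.1 hx).1
  obtain ⟨k, hk⟩ := h6
  obtain ⟨l, hl⟩ := he0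
  omega

end

end MPadc574Q
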