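import Mathlib
import Pool.Agent.Lib.MP_adc574_ag_Q.Count

/-! # Quartic character sums with three finite branch points -/

namespace MPadc574Q

open Polynomial MPadc574

noncomputable section

variable {p : ℕ} [Fact p.Prime]

theorem pow_four_e {e : ℕ} (he : 4 * e + 1 = p) {y : ZMod p} (hy : y ≠ 0) : y ^ (4 * e) = 1 := by
  have h : 4 * e = p - 1 := by omega
  rw [h]
  exact ZMod.pow_card_sub_one_eq_one hy

theorem pow_e_of_mul {e : ℕ} (he : 4 * e + 1 = p) {x y z : ZMod p} (hz : z ≠ 0)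
    (h : x = y * z ^ 4) : x ^ e = y ^ e := by
  rw [h, mul_pow, ← pow_mul, pow_four_e he hz, mul_one]

theorem two_ne_zero' {e : ℕ} (he : 4 * e + 1 = p) : (2 : ZMod p) ≠ 0 := by
  intro h
  have h6 : ((2 : ℕ) : ZMod p) = 0 := by exact_mod_cast h
  rw [CharP.cast_eq_zero_iff (ZMod p) p] at h6
  have := (Nat.prime_dvd_prime_iff_eq (Fact.out : p.Prime) Nat.prime_two).1 h6
  omega

/-- Fixed points of the involution `x ↦ m + (a - m) (c - m) / (x - m)`. -/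
theorem fixed_facts {e : ℕ} (he : 4 * e + 1 = p) {a m c d : ZMod p} (hac : a ≠ c) (ham : a ≠ m)
    (hcm : c ≠ m) (hd : d ^ 2 = (a - m) * (c - m)) :
    d ≠ 0 ∧ (m + d ≠ a ∧ m + d ≠ m ∧ m + d ≠ c) ∧ (m - d ≠ a ∧ m - d ≠ m ∧ m - d ≠ c) ∧
    m + d ≠ m - d ∧ m + (a - m) * (c - m) / (m + d - m) = m + d ∧
    m + (a - m) * (c - m) / (m - d - m) = m - d ∧
    ∀ x, x ≠ m → m + (a - m) * (c - m) / (x - m) = x → x = m + d ∨ x = m - d := by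
  have h1 : a - m ≠ 0 := sub_ne_zero.2 ham
  have h2 : c - m ≠ 0 := sub_ne_zero.2 hcm
  have hd0 : d ≠ 0 := by
    rintro rfl
    rw [zero_pow two_ne_zero] at hd
    exact mul_ne_zero h1 h2 hd.symm
  have h3 : ∀ d' : ZMod p, d' ^ 2 = (a - m) * (c - m) → m + d' ≠ a ∧ m + d' ≠ m ∧ m + d' ≠ c := by
    intro d' hd'
    have hd0' : d' ≠ 0 := by
      rintro rfl
      rw [zero_pow two_ne_zero] at hd'
      exact mul_ne_zero h1 h2 hd'.symm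
    refine ⟨?_, ?_, ?_⟩
    · intro h
      have h4 : d' = a - m := by linear_combination h
      rw [h4] at hd'
      have h5 : (a - m) * (a - c) = 0 := by linear_combination hd'
      rcases mul_eq_zero.1 h5 with h6 | h6
      · exact h1 h6
      · exact hac (sub_eq_zero.1 h6)
    · intro h
      apply hd0'
      linear_combination h
    · intro h
      have h4 : d' = c - m := by linear_combination h
      rw [h4] at hd'
      have h5 : (c - m) * (c - a) = 0 := by linear_combination hd'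
      rcases mul_eq_zero.1 h5 with h6 | h6
      · exact h2 h6
      · exact hac (sub_eq_zero.1 h6).symm
  refine ⟨hd0, h3 d hd, ?_, ?_, ?_, ?_, ?_⟩
  · have h4 := h3 (-d) (by rw [neg_sq, hd])
    rwa [← sub_eq_add_neg] at h4
  · intro h
    have h4 : (2 : ZMod p) * d = 0 := by linear_combination h
    rcases mul_eq_zero.1 h4 with h5 | h5
    · exact two_ne_zero' he h5
    · exact hd0 h5
  · rw [← hd, add_sub_cancel_left]
    field_simp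
  · rw [← hd]
    have h4 : m - d - m = -d := by ring
    rw [h4]
    field_simp
    ring
  · intro x hx h
    have hx0 : x - m ≠ 0 := sub_ne_zero.2 hx
    rw [← hd] at h
    have h4 : (x - (m + d)) * (x - (m - d)) = 0 := by
      field_simp at h
      linear_combination -h
    rcases mul_eq_zero.1 h4 with h5 | h5
    · exact Or.inl (sub_eq_zero.1 h5)
    · exact Or.inr (sub_eq_zero.1 h5)

/-- Case A in multiplicative form. -/
theorem sumA {e : ℕ} (he : 4 * e + 1 = p) (he0 : 0 < e) {a b c : ZMod p} (hab : a ≠ b)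
    (hac : a ≠ c) (hbc : b ≠ c) (f : ZMod p → ZMod p)
    (hf : ∀ x, f x ≠ 0 ↔ x ≠ a ∧ x ≠ b ∧ x ≠ c)
    {a1 m1 c1 : ZMod p} (h1 : ∀ x, (x ≠ a ∧ x ≠ b ∧ x ≠ c) ↔ (x ≠ a1 ∧ x ≠ m1 ∧ x ≠ c1))
    (hn1 : a1 ≠ m1) (hn2 : m1 ≠ c1)
    (hσ : ∀ x, (x ≠ a ∧ x ≠ b ∧ x ≠ c) →
      ∃ z, z ≠ 0 ∧ f (m1 + (a1 - m1) * (c1 - m1) / (x - m1)) = f x ^ 3 * z ^ 4)
    {a2 m2 c2 : ZMod p} (h2 : ∀ x, (x ≠ a ∧ x ≠ b ∧ x ≠ c) ↔ (x ≠ a2 ∧ x ≠ m2 ∧ x ≠ c2))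
    (hk1 : a2 ≠ m2) (hk2 : m2 ≠ c2) (hk3 : a2 ≠ c2)
    (hτ : ∀ x, (x ≠ a ∧ x ≠ b ∧ x ≠ c) →
      ∃ z, z ≠ 0 ∧ f (m2 + (a2 - m2) * (c2 - m2) / (x - m2)) = f x * z ^ 4)
    (d : ZMod p) (hd : d ^ 2 = (a2 - m2) * (c2 - m2))
    (hfix : ∃ z, z ≠ 0 ∧ f (m2 + d) = f (m2 - d) * z ^ 4) :
    ∑ x : ZMod p, f x ^ e ≠ 0 := by
  classical
  set T : Finset (ZMod p) := Finset.univ \ {a, b, c} with hT
  have hmem : ∀ x, x ∈ T ↔ x ≠ a ∧ x ≠ b ∧ x ≠ c := by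
    intro x
    rw [hT]
    simp
  have hsum : ∑ x : ZMod p, f x ^ e = ∑ x ∈ T, f x ^ e := by
    symm
    apply Finset.sum_subset (Finset.subset_univ _)
    intro x _ hx
    rw [hmem, ← hf, not_not] at hx
    rw [hx, zero_pow he0.ne']
  rw [hsum]
  obtain ⟨hd0, hu, hv, huv, hfu, hfv, hff⟩ := fixed_facts he hk3 hk1 hk2.symm hd
  apply caseA he T (card_compl_three hab hac hbc) (fun x => f x ^ e)
    (fun x => m1 + (a1 - m1) * (c1 - m1) / (x - m1))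
    (fun x => m2 + (a2 - m2) * (c2 - m2) / (x - m2)) ?_ ?_ ?_ ?_ ?_ ?_ ?_ (m2 + d) (m2 - d)
    ?_ ?_ huv hfu hfv ?_ ?_
  · intro x hx
    rw [hmem, ← hf] at hx
    rw [← pow_mul, mul_comm e 4]
    exact pow_four_e he hx
  · intro x hx
    rw [hmem, h1] at hx ⊢
    obtain ⟨h3, h4, h5, -⟩ := invol_facts hn1 hn2 hx.1 hx.2.1 hx.2.2
    exact ⟨h3, h4, h5⟩
  · intro x hx
    rw [hmem, h1] at hx
    exact (invol_facts hn1 hn2 hx.1 hx.2.1 hx.2.2).2.2.2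
  · intro x hx
    rw [hmem] at hx
    obtain ⟨z, hz, hz2⟩ := hσ x hx
    rw [pow_e_of_mul he hz hz2, ← pow_mul, ← pow_mul, mul_comm]
  · intro x hx
    rw [hmem, h2] at hx ⊢
    obtain ⟨h3, h4, h5, -⟩ := invol_facts hk1 hk2 hx.1 hx.2.1 hx.2.2
    exact ⟨h3, h4, h5⟩
  · intro x hx
    rw [hmem, h2] at hx
    exact (invol_facts hk1 hk2 hx.1 hx.2.1 hx.2.2).2.2.2
  · intro x hx
    rw [hmem] at hx
    obtain ⟨z, hz, hz2⟩ := hτ x hx
    exact pow_e_of_mul he hz hz2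
  · rw [hmem, h2]
    exact hu
  · rw [hmem, h2]
    exact hv
  · intro x hx
    rw [hmem, h2] at hx
    exact hff x hx.2.1
  · obtain ⟨z, hz, hz2⟩ := hfix
    exact pow_e_of_mul he hz hz2

/-- Case B in multiplicative form. -/
theorem sumB {e : ℕ} (he : 4 * e + 1 = p) (he0 : 0 < e) (hee : Even e) {a b c : ZMod p}
    (hab : a ≠ b) (hac : a ≠ c) (hbc : b ≠ c) (f : ZMod p → ZMod p)
    (hf : ∀ x, f x ≠ 0 ↔ x ≠ a ∧ x ≠ b ∧ x ≠ c)
    {a2 m2 c2 : ZMod p} (h2 : ∀ x, (x ≠ a ∧ x ≠ b ∧ x ≠ c) ↔ (x ≠ a2 ∧ x ≠ m2 ∧ x ≠ c2))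
    (hk1 : a2 ≠ m2) (hk2 : m2 ≠ c2) (hk3 : a2 ≠ c2)
    (hσ : ∀ x, (x ≠ a ∧ x ≠ b ∧ x ≠ c) →
      ∃ z, z ≠ 0 ∧ f (m2 + (a2 - m2) * (c2 - m2) / (x - m2)) = f x ^ 3 * z ^ 4)
    (hs2 : ∑ x ∈ Finset.univ \ {a, b, c}, (f x ^ e) ^ 2 = -2)
    (d : ZMod p) (hd : d ^ 2 = (a2 - m2) * (c2 - m2))
    (hfix : ∃ z, z ≠ 0 ∧ f (m2 + d) = f (m2 - d) * z ^ 4) :
    ∑ x : ZMod p, f x ^ e ≠ 0 := by
  classical
  set T : Finset (ZMod p) := Finset.univ \ {a, b, c} with hT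
  have hmem : ∀ x, x ∈ T ↔ x ≠ a ∧ x ≠ b ∧ x ≠ c := by
    intro x
    rw [hT]
    simp
  have hsum : ∑ x : ZMod p, f x ^ e = ∑ x ∈ T, f x ^ e := by
    symm
    apply Finset.sum_subset (Finset.subset_univ _)
    intro x _ hx
    rw [hmem, ← hf, not_not] at hx
    rw [hx, zero_pow he0.ne']
  rw [hsum]
  obtain ⟨hd0, hu, hv, huv, hfu, hfv, hff⟩ := fixed_facts he hk3 hk1 hk2.symm hd
  apply caseB he hee T (card_compl_three hab hac hbc) (fun x => f x ^ e)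
    (fun x => m2 + (a2 - m2) * (c2 - m2) / (x - m2)) ?_ ?_ ?_ ?_ hs2 (m2 + d) (m2 - d)
    ?_ ?_ huv hfu hfv ?_ ?_
  · intro x hx
    rw [hmem, ← hf] at hx
    rw [← pow_mul, mul_comm e 4]
    exact pow_four_e he hx
  · intro x hx
    rw [hmem, h2] at hx ⊢
    obtain ⟨h3, h4, h5, -⟩ := invol_facts hk1 hk2 hx.1 hx.2.1 hx.2.2
    exact ⟨h3, h4, h5⟩
  · intro x hx
    rw [hmem, h2] at hx
    exact (invol_facts hk1 hk2 hx.1 hx.2.1 hx.2.2).2.2.2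
  · intro x hx
    rw [hmem] at hx
    obtain ⟨z, hz, hz2⟩ := hσ x hx
    rw [pow_e_of_mul he hz hz2, ← pow_mul, ← pow_mul, mul_comm]
  · rw [hmem, h2]
    exact hu
  · rw [hmem, h2]
    exact hv
  · intro x hx
    rw [hmem, h2] at hx
    exact hff x hx.2.1
  · obtain ⟨z, hz, hz2⟩ := hfix
    exact pow_e_of_mul he hz hz2

end

end MPadc574Q
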