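import Mathlib
import Pool.Agent.Lib.MP_adc574_ag_Q.Types

/-! # The five types of quartic character sums -/

namespace MPadc574Q

open Polynomial MPadc574

noncomputable section

variable {p : ℕ} [Fact p.Prime]

theorem add_ne_zero_of_sq {u v : ZMod p} (h : u ^ 4 ≠ v ^ 4) :
    u ^ 2 + v ^ 2 ≠ 0 ∧ u ^ 2 - v ^ 2 ≠ 0 := by
  constructor
  · intro h1
    apply h
    linear_combination (u ^ 2 - v ^ 2) * h1
  · intro h1
    apply h
    linear_combination (u ^ 2 + v ^ 2) * h1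

theorem ne_zero_of_pow_four {x r : ZMod p} (hx : x ≠ 0) (h : x = r ^ 4) : r ≠ 0 := by
  rintro rfl
  apply hx
  rw [h]
  ring

/-- weights `(1, 1, 3; 3)` -/
theorem sum_113 {e : ℕ} (he : 4 * e + 1 = p) (he0 : 0 < e) {a b c : ZMod p} (hab : a ≠ b)
    (hac : a ≠ c) (hbc : b ≠ c) {r s t : ZMod p} (hr : a - b = r ^ 4) (hs : a - c = s ^ 4)
    (ht : b - c = t ^ 4) :
    ∑ x : ZMod p, ((x - a) * (x - b) * (x - c) ^ 3) ^ e ≠ 0 := by
  have h1 : a - b ≠ 0 := sub_ne_zero.2 hab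
  have h2 : a - c ≠ 0 := sub_ne_zero.2 hac
  have h3 : b - c ≠ 0 := sub_ne_zero.2 hbc
  have h4 : c - b ≠ 0 := sub_ne_zero.2 hbc.symm
  have hr0 := ne_zero_of_pow_four h1 hr
  obtain ⟨g1, g2⟩ := add_ne_zero_of_sq (u := s) (v := t) (by
    rw [← hs, ← ht]
    intro h
    apply h1
    linear_combination h)
  refine sumA he he0 hab hac hbc (fun x => (x - a) * (x - b) * (x - c) ^ 3) ?_
    (a1 := a) (m1 := b) (c1 := c) (fun x => Iff.rfl) hab hbc ?_
    (a2 := a) (m2 := c) (c2 := b) (fun x => by tauto) hac hbc.symm hab ?_ (s ^ 2 * t ^ 2) ?_ ?_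
  · intro x
    simp [sub_eq_zero, and_assoc]
  · rintro x ⟨hx1, hx2, hx3⟩
    have k1 : x - a ≠ 0 := sub_ne_zero.2 hx1
    have k2 : x - b ≠ 0 := sub_ne_zero.2 hx2
    have k3 : x - c ≠ 0 := sub_ne_zero.2 hx3
    refine ⟨r ^ 2 * (c - b) / ((x - b) ^ 2 * (x - c) ^ 2),
      div_ne_zero (mul_ne_zero (pow_ne_zero _ hr0) h4)
        (mul_ne_zero (pow_ne_zero _ k2) (pow_ne_zero _ k3)), ?_⟩
    have e1 : (r ^ 2 * (c - b) / ((x - b) ^ 2 * (x - c) ^ 2)) ^ 4 =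
        (a - b) ^ 2 * (c - b) ^ 4 / ((x - b) ^ 8 * (x - c) ^ 8) := by
      rw [hr]
      field_simp
    rw [e1]
    field_simp
    ring
  · rintro x ⟨hx1, hx2, hx3⟩
    have k1 : x - a ≠ 0 := sub_ne_zero.2 hx1
    have k2 : x - b ≠ 0 := sub_ne_zero.2 hx2
    have k3 : x - c ≠ 0 := sub_ne_zero.2 hx3
    refine ⟨(a - c) * (b - c) / (x - c) ^ 2,
      div_ne_zero (mul_ne_zero h2 h3) (pow_ne_zero _ k3), ?_⟩
    field_simp
    ring
  · rw [hs, ht]
    ring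
  · refine ⟨r ^ 2 / (s ^ 2 + t ^ 2), div_ne_zero (pow_ne_zero _ hr0) g1, ?_⟩
    have ha : a = c + s ^ 4 := by linear_combination hs
    have hb : b = c + t ^ 4 := by linear_combination ht
    have e1 : (r ^ 2 / (s ^ 2 + t ^ 2)) ^ 4 = (s ^ 4 - t ^ 4) ^ 2 / (s ^ 2 + t ^ 2) ^ 4 := by
      rw [← hs, ← ht, div_pow]
      congr 1
      have : a - c - (b - c) = r ^ 4 := by linear_combination hr
      rw [this]
      ring
    rw [e1, ha, hb]
    field_simp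
    ring

/-- weights `(1, 3, 3; 1)` -/
theorem sum_133 {e : ℕ} (he : 4 * e + 1 = p) (he0 : 0 < e) {a b c : ZMod p} (hab : a ≠ b)
    (hac : a ≠ c) (hbc : b ≠ c) {t u v : ZMod p} (ht : b - c = t ^ 4) (hu : b - a = u ^ 4)
    (hv : c - a = v ^ 4) :
    ∑ x : ZMod p, ((x - a) * (x - b) ^ 3 * (x - c) ^ 3) ^ e ≠ 0 := by
  have h1 : b - a ≠ 0 := sub_ne_zero.2 hab.symm
  have h2 : c - a ≠ 0 := sub_ne_zero.2 hac.symm
  have h3 : b - c ≠ 0 := sub_ne_zero.2 hbc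
  have h4 : a - c ≠ 0 := sub_ne_zero.2 hac
  have ht0 := ne_zero_of_pow_four h3 ht
  obtain ⟨g1, g2⟩ := add_ne_zero_of_sq (u := u) (v := v) (by
    rw [← hu, ← hv]
    intro h
    apply h3
    linear_combination h)
  refine sumA he he0 hab hac hbc (fun x => (x - a) * (x - b) ^ 3 * (x - c) ^ 3) ?_
    (a1 := a) (m1 := c) (c1 := b) (fun x => by tauto) hac hbc.symm ?_
    (a2 := b) (m2 := a) (c2 := c) (fun x => by tauto) hab.symm hac hbc ?_ (u ^ 2 * v ^ 2) ?_ ?_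
  · intro x
    simp [sub_eq_zero, and_assoc]
  · rintro x ⟨hx1, hx2, hx3⟩
    have k1 : x - a ≠ 0 := sub_ne_zero.2 hx1
    have k2 : x - b ≠ 0 := sub_ne_zero.2 hx2
    have k3 : x - c ≠ 0 := sub_ne_zero.2 hx3
    refine ⟨(a - c) * t ^ 6 / ((x - b) ^ 2 * (x - c) ^ 4),
      div_ne_zero (mul_ne_zero h4 (pow_ne_zero _ ht0))
        (mul_ne_zero (pow_ne_zero _ k2) (pow_ne_zero _ k3)), ?_⟩
    have e1 : ((a - c) * t ^ 6 / ((x - b) ^ 2 * (x - c) ^ 4)) ^ 4 =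
        (a - c) ^ 4 * (b - c) ^ 6 / ((x - b) ^ 8 * (x - c) ^ 16) := by
      rw [ht]
      field_simp
    rw [e1]
    field_simp
    ring
  · rintro x ⟨hx1, hx2, hx3⟩
    have k1 : x - a ≠ 0 := sub_ne_zero.2 hx1
    have k2 : x - b ≠ 0 := sub_ne_zero.2 hx2
    have k3 : x - c ≠ 0 := sub_ne_zero.2 hx3
    refine ⟨(b - a) * (c - a) / (x - a) ^ 2,
      div_ne_zero (mul_ne_zero h1 h2) (pow_ne_zero _ k1), ?_⟩
    field_simp
    ring
  · rw [hu, hv]
    ring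
  · refine ⟨t ^ 6 / (u ^ 2 + v ^ 2) ^ 3, div_ne_zero (pow_ne_zero _ ht0) (pow_ne_zero _ g1), ?_⟩
    have hb : b = a + u ^ 4 := by linear_combination hu
    have hc : c = a + v ^ 4 := by linear_combination hv
    have e1 : (t ^ 6 / (u ^ 2 + v ^ 2) ^ 3) ^ 4 =
        (u ^ 4 - v ^ 4) ^ 6 / (u ^ 2 + v ^ 2) ^ 12 := by
      rw [← hu, ← hv, div_pow]
      have : b - a - (c - a) = t ^ 4 := by linear_combination ht
      rw [this, ← pow_mul, ← pow_mul, ← pow_mul]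
    rw [e1, hb, hc]
    field_simp
    ring

theorem sum_sub_pow {e : ℕ} (he : 4 * e + 1 = p) (he0 : 0 < e) (a : ZMod p) :
    ∑ x : ZMod p, (x - a) ^ (2 * e) = 0 := by
  have h : (((X - C a) ^ (2 * e) : (ZMod p)[X])).natDegree = 2 * e := by
    rw [natDegree_pow, natDegree_X_sub_C, mul_one]
  have h1 := sum_eval_zmod ((X - C a) ^ (2 * e) : (ZMod p)[X]) (by omega)
  rw [coeff_eq_zero_of_natDegree_lt (by omega), coeff_eq_zero_of_natDegree_lt (by omega),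
    add_zero, neg_zero] at h1
  rw [← h1]
  apply Finset.sum_congr rfl
  intro x _
  simp

theorem sum_sub_sub_pow {e : ℕ} (he : 4 * e + 1 = p) (he0 : 0 < e) (a c : ZMod p) :
    ∑ x : ZMod p, ((x - a) * (x - c)) ^ (2 * e) = -1 := by
  have hm : (((X - C a) * (X - C c)) ^ (2 * e) : (ZMod p)[X]).Monic :=
    ((monic_X_sub_C a).mul (monic_X_sub_C c)).pow _
  have h : ((((X - C a) * (X - C c)) ^ (2 * e) : (ZMod p)[X])).natDegree = p - 1 := by
    rw [natDegree_pow, natDegree_mul (X_sub_C_ne_zero _) (X_sub_C_ne_zero _), natDegree_X_sub_C,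
      natDegree_X_sub_C]
    omega
  have h1 := sum_eval_zmod (((X - C a) * (X - C c)) ^ (2 * e) : (ZMod p)[X]) (by omega)
  have h2 := hm.coeff_natDegree
  rw [h] at h2
  rw [h2, coeff_eq_zero_of_natDegree_lt (by omega), add_zero] at h1
  rw [← h1]
  apply Finset.sum_congr rfl
  intro x _
  simp

theorem sum_sq_aux {a b c : ZMod p} (hab : a ≠ b) (hac : a ≠ c) (hbc : b ≠ c)
    (F g : ZMod p → ZMod p) (G : ZMod p) (h1 : ∀ x, (x ≠ a ∧ x ≠ b ∧ x ≠ c) → F x = g x)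
    (h2 : ∑ x, g x = G) (h3 : g a + g b + g c = G + 2) :
    ∑ x ∈ Finset.univ \ {a, b, c}, F x = -2 := by
  classical
  have h4 : ∑ x ∈ Finset.univ \ {a, b, c}, F x = ∑ x ∈ Finset.univ \ {a, b, c}, g x := by
    apply Finset.sum_congr rfl
    intro x hx
    apply h1
    simpa using hx
  have h5 := Finset.sum_sdiff (f := g) (Finset.subset_univ ({a, b, c} : Finset (ZMod p)))
  rw [h2, Finset.sum_insert (by simp [hab, hac]), Finset.sum_pair hbc] at h5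
  rw [h4]
  linear_combination h5 - h3

/-- weights `(1, 2, 2; 3)` -/
theorem sum_122 {e : ℕ} (he : 4 * e + 1 = p) (he0 : 0 < e) (hee : Even e) {z : ZMod p}
    (hz : z ^ 4 = -1) {a b c : ZMod p} (hab : a ≠ b)
    (hac : a ≠ c) (hbc : b ≠ c) {u v : ZMod p} (hu : b - a = u ^ 4) (hv : c - a = v ^ 4) :
    ∑ x : ZMod p, ((x - a) * (x - b) ^ 2 * (x - c) ^ 2) ^ e ≠ 0 := by
  have h1 : b - a ≠ 0 := sub_ne_zero.2 hab.symm
  have h2 : c - a ≠ 0 := sub_ne_zero.2 hac.symm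
  have h3 : b - c ≠ 0 := sub_ne_zero.2 hbc
  have hu0 := ne_zero_of_pow_four h1 hu
  have hv0 := ne_zero_of_pow_four h2 hv
  have hz0 : z ≠ 0 := by
    rintro rfl
    norm_num at hz
  obtain ⟨g1, g2⟩ := add_ne_zero_of_sq (u := u) (v := v) (by
    rw [← hu, ← hv]
    intro h
    apply h3
    linear_combination h)
  refine sumB he he0 hee hab hac hbc (fun x => (x - a) * (x - b) ^ 2 * (x - c) ^ 2) ?_
    (a2 := b) (m2 := a) (c2 := c) (fun x => by tauto) hab.symm hac hbc ?_ ?_ (u ^ 2 * v ^ 2) ?_ ?_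
  · intro x
    simp [sub_eq_zero, and_assoc]
  · rintro x ⟨hx1, hx2, hx3⟩
    have k1 : x - a ≠ 0 := sub_ne_zero.2 hx1
    have k2 : x - b ≠ 0 := sub_ne_zero.2 hx2
    have k3 : x - c ≠ 0 := sub_ne_zero.2 hx3
    refine ⟨(u * v) ^ 3 / ((x - a) ^ 2 * (x - b) * (x - c)),
      div_ne_zero (pow_ne_zero _ (mul_ne_zero hu0 hv0))
        (mul_ne_zero (mul_ne_zero (pow_ne_zero _ k1) k2) k3), ?_⟩
    have e1 : ((u * v) ^ 3 / ((x - a) ^ 2 * (x - b) * (x - c))) ^ 4 =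
        ((b - a) * (c - a)) ^ 3 / ((x - a) ^ 8 * (x - b) ^ 4 * (x - c) ^ 4) := by
      rw [hu, hv]
      field_simp
    rw [e1]
    field_simp
    ring
  · refine sum_sq_aux hab hac hbc _ (fun x => (x - a) ^ (2 * e)) 0 ?_ (sum_sub_pow he he0 a) ?_
    · rintro x ⟨hx1, hx2, hx3⟩
      have k2 : x - b ≠ 0 := sub_ne_zero.2 hx2
      have k3 : x - c ≠ 0 := sub_ne_zero.2 hx3
      have e2 : (((x - a) * (x - b) ^ 2 * (x - c) ^ 2) ^ e) ^ 2 =
          (x - a) ^ (2 * e) * (x - b) ^ (4 * e) * (x - c) ^ (4 * e) := by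
        generalize x - a = A
        generalize x - b = B
        generalize x - c = D
        ring
      rw [e2, pow_four_e he k2, pow_four_e he k3, mul_one, mul_one]
    · have e3 : ∀ w : ZMod p, w ≠ 0 → (w ^ 4) ^ (2 * e) = 1 := by
        intro w hw
        rw [← pow_mul, show 4 * (2 * e) = (4 * e) * 2 by ring, pow_mul, pow_four_e he hw, one_pow]
      rw [hu, hv, e3 u hu0, e3 v hv0, sub_self, zero_pow (by omega)]
      norm_num
  · rw [hu, hv]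
    ring
  · refine ⟨z * (u ^ 2 - v ^ 2) / (u ^ 2 + v ^ 2), div_ne_zero (mul_ne_zero hz0 g2) g1, ?_⟩
    have hb : b = a + u ^ 4 := by linear_combination hu
    have hc : c = a + v ^ 4 := by linear_combination hv
    have e1 : (z * (u ^ 2 - v ^ 2) / (u ^ 2 + v ^ 2)) ^ 4 =
        -(u ^ 2 - v ^ 2) ^ 4 / (u ^ 2 + v ^ 2) ^ 4 := by
      rw [div_pow, mul_pow, hz]
      ring
    rw [e1, hb, hc]
    field_simp
    ring

/-- weights `(2, 2, 3; 1)` -/
theorem sum_223 {e : ℕ} (he : 4 * e + 1 = p) (he0 : 0 < e) (hee : Even e) {z : ZMod p}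
    (hz : z ^ 4 = -1) {a b c : ZMod p} (hab : a ≠ b)
    (hac : a ≠ c) (hbc : b ≠ c) {s t : ZMod p} (hs : a - c = s ^ 4) (ht : b - c = t ^ 4) :
    ∑ x : ZMod p, ((x - a) ^ 2 * (x - b) ^ 2 * (x - c) ^ 3) ^ e ≠ 0 := by
  have h1 : a - b ≠ 0 := sub_ne_zero.2 hab
  have h2 : a - c ≠ 0 := sub_ne_zero.2 hac
  have h3 : b - c ≠ 0 := sub_ne_zero.2 hbc
  have hs0 := ne_zero_of_pow_four h2 hs
  have ht0 := ne_zero_of_pow_four h3 ht
  have hz0 : z ≠ 0 := by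
    rintro rfl
    norm_num at hz
  obtain ⟨g1, g2⟩ := add_ne_zero_of_sq (u := s) (v := t) (by
    rw [← hs, ← ht]
    intro h
    apply h1
    linear_combination h)
  refine sumB he he0 hee hab hac hbc (fun x => (x - a) ^ 2 * (x - b) ^ 2 * (x - c) ^ 3) ?_
    (a2 := a) (m2 := c) (c2 := b) (fun x => by tauto) hac hbc.symm hab ?_ ?_ (s ^ 2 * t ^ 2) ?_ ?_
  · intro x
    simp [sub_eq_zero, and_assoc]
  · rintro x ⟨hx1, hx2, hx3⟩
    have k1 : x - a ≠ 0 := sub_ne_zero.2 hx1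
    have k2 : x - b ≠ 0 := sub_ne_zero.2 hx2
    have k3 : x - c ≠ 0 := sub_ne_zero.2 hx3
    refine ⟨(s * t) ^ 5 / ((x - a) * (x - b) * (x - c) ^ 4),
      div_ne_zero (pow_ne_zero _ (mul_ne_zero hs0 ht0))
        (mul_ne_zero (mul_ne_zero k1 k2) (pow_ne_zero _ k3)), ?_⟩
    have e1 : ((s * t) ^ 5 / ((x - a) * (x - b) * (x - c) ^ 4)) ^ 4 =
        ((a - c) * (b - c)) ^ 5 / ((x - a) ^ 4 * (x - b) ^ 4 * (x - c) ^ 16) := by
      rw [hs, ht]
      field_simp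
    rw [e1]
    field_simp
    ring
  · refine sum_sq_aux hab hac hbc _ (fun x => (x - c) ^ (2 * e)) 0 ?_ (sum_sub_pow he he0 c) ?_
    · rintro x ⟨hx1, hx2, hx3⟩
      have k1 : x - a ≠ 0 := sub_ne_zero.2 hx1
      have k2 : x - b ≠ 0 := sub_ne_zero.2 hx2
      have k3 : x - c ≠ 0 := sub_ne_zero.2 hx3
      have e2 : (((x - a) ^ 2 * (x - b) ^ 2 * (x - c) ^ 3) ^ e) ^ 2 =
          (x - a) ^ (4 * e) * (x - b) ^ (4 * e) * ((x - c) ^ (4 * e) * (x - c) ^ (2 * e)) := by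
        generalize x - a = A
        generalize x - b = B
        generalize x - c = D
        ring
      rw [e2, pow_four_e he k1, pow_four_e he k2, pow_four_e he k3]
      ring
    · have e3 : ∀ w : ZMod p, w ≠ 0 → (w ^ 4) ^ (2 * e) = 1 := by
        intro w hw
        rw [← pow_mul, show 4 * (2 * e) = (4 * e) * 2 by ring, pow_mul, pow_four_e he hw, one_pow]
      rw [hs, ht, e3 s hs0, e3 t ht0, sub_self, zero_pow (by omega)]
      norm_num
  · rw [hs, ht]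
    ring
  · refine ⟨z * (s ^ 2 - t ^ 2) / (s ^ 2 + t ^ 2), div_ne_zero (mul_ne_zero hz0 g2) g1, ?_⟩
    have ha : a = c + s ^ 4 := by linear_combination hs
    have hb : b = c + t ^ 4 := by linear_combination ht
    have e1 : (z * (s ^ 2 - t ^ 2) / (s ^ 2 + t ^ 2)) ^ 4 =
        -(s ^ 2 - t ^ 2) ^ 4 / (s ^ 2 + t ^ 2) ^ 4 := by
      rw [div_pow, mul_pow, hz]
      ring
    rw [e1, ha, hb]
    field_simp
    ring

/-- weights `(1, 2, 3; 2)` -/
theorem sum_123 {e : ℕ} (he : 4 * e + 1 = p) (he0 : 0 < e) (hee : Even e) {z : ZMod p}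
    (hz : z ^ 4 = -1) {a b c : ZMod p} (hab : a ≠ b)
    (hac : a ≠ c) (hbc : b ≠ c) {r v : ZMod p} (hr : a - b = r ^ 4) (hv : c - b = v ^ 4) :
    ∑ x : ZMod p, ((x - a) * (x - b) ^ 2 * (x - c) ^ 3) ^ e ≠ 0 := by
  have h1 : a - b ≠ 0 := sub_ne_zero.2 hab
  have h2 : a - c ≠ 0 := sub_ne_zero.2 hac
  have h3 : c - b ≠ 0 := sub_ne_zero.2 hbc.symm
  have hr0 := ne_zero_of_pow_four h1 hr
  have hv0 := ne_zero_of_pow_four h3 hv
  have hz0 : z ≠ 0 := by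
    rintro rfl
    norm_num at hz
  obtain ⟨g1, g2⟩ := add_ne_zero_of_sq (u := r) (v := v) (by
    rw [← hr, ← hv]
    intro h
    apply h2
    linear_combination h)
  refine sumB he he0 hee hab hac hbc (fun x => (x - a) * (x - b) ^ 2 * (x - c) ^ 3) ?_
    (a2 := a) (m2 := b) (c2 := c) (fun x => Iff.rfl) hab hbc hac ?_ ?_ (r ^ 2 * v ^ 2) ?_ ?_
  · intro x
    simp [sub_eq_zero, and_assoc]
  · rintro x ⟨hx1, hx2, hx3⟩
    have k1 : x - a ≠ 0 := sub_ne_zero.2 hx1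
    have k2 : x - b ≠ 0 := sub_ne_zero.2 hx2
    have k3 : x - c ≠ 0 := sub_ne_zero.2 hx3
    refine ⟨r ^ 3 * v ^ 5 / ((x - b) ^ 3 * (x - c) ^ 2),
      div_ne_zero (mul_ne_zero (pow_ne_zero _ hr0) (pow_ne_zero _ hv0))
        (mul_ne_zero (pow_ne_zero _ k2) (pow_ne_zero _ k3)), ?_⟩
    have e1 : (r ^ 3 * v ^ 5 / ((x - b) ^ 3 * (x - c) ^ 2)) ^ 4 =
        (a - b) ^ 3 * (c - b) ^ 5 / ((x - b) ^ 12 * (x - c) ^ 8) := by
      rw [hr, hv]
      field_simp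
    rw [e1]
    field_simp
    ring
  · refine sum_sq_aux hab hac hbc _ (fun x => ((x - a) * (x - c)) ^ (2 * e)) (-1) ?_
      (sum_sub_sub_pow he he0 a c) ?_
    · rintro x ⟨hx1, hx2, hx3⟩
      have k2 : x - b ≠ 0 := sub_ne_zero.2 hx2
      have k3 : x - c ≠ 0 := sub_ne_zero.2 hx3
      have e2 : (((x - a) * (x - b) ^ 2 * (x - c) ^ 3) ^ e) ^ 2 =
          ((x - a) * (x - c)) ^ (2 * e) * (x - b) ^ (4 * e) * (x - c) ^ (4 * e) := by
        generalize x - a = A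
        generalize x - b = B
        generalize x - c = D
        ring
      rw [e2, pow_four_e he k2, pow_four_e he k3, mul_one, mul_one]
    · have e3 : ∀ w : ZMod p, w ≠ 0 → (w ^ 4) ^ (2 * e) = 1 := by
        intro w hw
        rw [← pow_mul, show 4 * (2 * e) = (4 * e) * 2 by ring, pow_mul, pow_four_e he hw, one_pow]
      have e4 : (b - a) * (b - c) = (r * v) ^ 4 := by
        rw [mul_pow, ← hr, ← hv]
        ring
      rw [e4, e3 _ (mul_ne_zero hr0 hv0), sub_self, zero_mul, sub_self, mul_zero,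
        zero_pow (by omega)]
      norm_num
  · rw [hr, hv]
    ring
  · refine ⟨z * (r ^ 2 - v ^ 2) / (r ^ 2 + v ^ 2), div_ne_zero (mul_ne_zero hz0 g2) g1, ?_⟩
    have ha : a = b + r ^ 4 := by linear_combination hr
    have hc : c = b + v ^ 4 := by linear_combination hv
    have e1 : (z * (r ^ 2 - v ^ 2) / (r ^ 2 + v ^ 2)) ^ 4 =
        -(r ^ 2 - v ^ 2) ^ 4 / (r ^ 2 + v ^ 2) ^ 4 := by
      rw [div_pow, mul_pow, hz]
      ring
    rw [e1, ha, hc]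
    field_simp
    ring

end

end MPadc574Q
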