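import Mathlib
import Pool.Agent.Lib.MP_adc574_ag_Q.Sums
import Pool.Agent.Lib.MP_adc574_ag_Q.Dual
import Pool.Agent.Lib.MP_adc574_ag_Q.PieceD

/-! # The base cases for exponent four -/

namespace MPadc574Q

open Polynomial MPadc574

noncomputable section

variable {p : ℕ} [Fact p.Prime]

/-- From the character sum to the coefficient. -/
theorem coeff_of_sum {e w1 w2 w3 : ℕ} (he : 4 * e + 1 = p) (he0 : 0 < e) (hS : w1 + w2 + w3 < 8)
    {a b c : ZMod p}
    (h : ∑ x : ZMod p, ((x - a) ^ w1 * (x - b) ^ w2 * (x - c) ^ w3) ^ e ≠ 0) :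
    ((X - C a) ^ (w1 * e) * (X - C b) ^ (w2 * e) * (X - C c) ^ (w3 * e) : (ZMod p)[X]).coeff
      (p - 1) ≠ 0 := by
  intro h0
  set P : (ZMod p)[X] := (X - C a) ^ (w1 * e) * (X - C b) ^ (w2 * e) * (X - C c) ^ (w3 * e) with hP
  have hdeg : P.natDegree < 2 * (p - 1) := by
    have h1 : P.natDegree ≤ w1 * e + w2 * e + w3 * e := by
      rw [hP]
      refine natDegree_mul_le.trans ?_
      refine add_le_add (natDegree_mul_le.trans (add_le_add ?_ ?_)) ?_ <;>
      · refine natDegree_pow_le.trans ?_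
        rw [natDegree_X_sub_C, mul_one]
    have h2 : w1 * e + w2 * e + w3 * e ≤ 7 * e := by
      rw [← add_mul, ← add_mul]
      exact Nat.mul_le_mul_right _ (by omega)
    omega
  have h1 := sum_eval_zmod P hdeg.le
  rw [h0, coeff_eq_zero_of_natDegree_lt hdeg, add_zero, neg_zero] at h1
  apply h
  rw [← h1]
  apply Finset.sum_congr rfl
  intro x _
  rw [hP]
  simp only [eval_mul, eval_pow, eval_sub, eval_X, eval_C]
  simp only [mul_pow, ← pow_mul]

/-- The coefficient is nonzero. -/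
def Cf (e w1 w2 w3 : ℕ) (a b c : ZMod p) : Prop :=
  ((X - C a) ^ (w1 * e) * (X - C b) ^ (w2 * e) * (X - C c) ^ (w3 * e) : (ZMod p)[X]).coeff
      (p - 1) ≠ 0

theorem Cf.swap12 {e w1 w2 w3 : ℕ} {a b c : ZMod p} (h : Cf e w2 w1 w3 b a c) :
    Cf e w1 w2 w3 a b c := by
  unfold Cf at h ⊢
  rwa [mul_comm ((X - C a) ^ (w1 * e)) ((X - C b) ^ (w2 * e))]

theorem Cf.swap23 {e w1 w2 w3 : ℕ} {a b c : ZMod p} (h : Cf e w1 w3 w2 a c b) :
    Cf e w1 w2 w3 a b c := by
  unfold Cf at h ⊢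
  rwa [mul_assoc, mul_comm ((X - C b) ^ (w2 * e)) ((X - C c) ^ (w3 * e)), ← mul_assoc]

theorem Cf_of_sum {e w1 w2 w3 : ℕ} (he : 4 * e + 1 = p) (he0 : 0 < e) (hS : w1 + w2 + w3 < 8)
    {a b c : ZMod p}
    (h : ∑ x : ZMod p, ((x - a) ^ w1 * (x - b) ^ w2 * (x - c) ^ w3) ^ e ≠ 0) :
    Cf e w1 w2 w3 a b c := coeff_of_sum he he0 hS h

/-- All coefficients needed in the base case. -/
theorem Cf_four {e w1 w2 w3 : ℕ} (he : 4 * e + 1 = p) (he0 : 0 < e) (h1 : 0 < w1)
    (h1' : w1 < 4) (h2 : 0 < w2) (h2' : w2 < 4) (h3 : 0 < w3) (h3' : w3 < 4)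
    (hS : 4 ≤ w1 + w2 + w3) (hS' : w1 + w2 + w3 < 8) {a b c : ZMod p} (hab : a ≠ b)
    (hac : a ≠ c) (hbc : b ≠ c)
    (hD : ∀ x ∈ ({a, b, c} : Set (ZMod p)), ∀ y ∈ ({a, b, c} : Set (ZMod p)),
      ∃ r : ZMod p, x - y = r ^ 4) :
    Cf e w1 w2 w3 a b c := by
  obtain ⟨rab, hrab⟩ := hD a (by simp) b (by simp)
  obtain ⟨rac, hrac⟩ := hD a (by simp) c (by simp)
  obtain ⟨rbc, hrbc⟩ := hD b (by simp) c (by simp)
  obtain ⟨rba, hrba⟩ := hD b (by simp) a (by simp)
  obtain ⟨rca, hrca⟩ := hD c (by simp) a (by simp)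
  obtain ⟨rcb, hrcb⟩ := hD c (by simp) b (by simp)
  have hrab0 := ne_zero_of_pow_four (sub_ne_zero.2 hab) hrab
  have hrba0 := ne_zero_of_pow_four (sub_ne_zero.2 hab.symm) hrba
  have hz : (rba / rab) ^ 4 = -1 := by
    rw [div_pow, ← hrab, ← hrba, div_eq_iff (sub_ne_zero.2 hab)]
    ring
  have hee : Even e := by
    have h5 : (-1 : ZMod p) ^ e = 1 := by
      rw [← hz, ← pow_mul]
      exact pow_four_e he (div_ne_zero hrba0 hrab0)
    by_contra hcon
    rw [Nat.not_even_iff_odd] at hcon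
    rw [hcon.neg_one_pow] at h5
    apply two_ne_zero' he
    linear_combination -h5
  have h111 : w1 + w2 + w3 = 4 → Cf e w1 w2 w3 a b c := by
    intro hS4
    unfold Cf
    have hm : ((X - C a) ^ (w1 * e) * (X - C b) ^ (w2 * e) * (X - C c) ^ (w3 * e) :
        (ZMod p)[X]).Monic := (((monic_X_sub_C _).pow _).mul ((monic_X_sub_C _).pow _)).mul
      ((monic_X_sub_C _).pow _)
    have hd : ((X - C a) ^ (w1 * e) * (X - C b) ^ (w2 * e) * (X - C c) ^ (w3 * e) :
        (ZMod p)[X]).natDegree = p - 1 := by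
      rw [natDegree_mul (by simp [X_sub_C_ne_zero]) (by simp [X_sub_C_ne_zero]),
        natDegree_mul (by simp [X_sub_C_ne_zero]) (by simp [X_sub_C_ne_zero]), natDegree_pow,
        natDegree_pow, natDegree_pow, natDegree_X_sub_C, natDegree_X_sub_C,
        natDegree_X_sub_C, mul_one, mul_one, mul_one, ← add_mul, ← add_mul, hS4]
      omega
    have h4 := hm.coeff_natDegree
    rw [hd] at h4
    rw [h4]
    exact one_ne_zero
  by_cases hS4 : w1 + w2 + w3 = 4
  · exact h111 hS4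
  clear h111
  have h113 : ∀ {a b c r s t : ZMod p}, a ≠ b → a ≠ c → b ≠ c → a - b = r ^ 4 → a - c = s ^ 4 →
      b - c = t ^ 4 → Cf e 1 1 3 a b c := by
    intro a b c r s t k1 k2 k3 k4 k5 k6
    apply Cf_of_sum he he0 (by norm_num)
    simp only [pow_one]
    exact sum_113 he he0 k1 k2 k3 k4 k5 k6
  have h133 : ∀ {a b c t u v : ZMod p}, a ≠ b → a ≠ c → b ≠ c → b - c = t ^ 4 → b - a = u ^ 4 →
      c - a = v ^ 4 → Cf e 1 3 3 a b c := by
    intro a b c r s t k1 k2 k3 k4 k5 k6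
    apply Cf_of_sum he he0 (by norm_num)
    simp only [pow_one]
    exact sum_133 he he0 k1 k2 k3 k4 k5 k6
  have h122 : ∀ {a b c u v : ZMod p}, a ≠ b → a ≠ c → b ≠ c → b - a = u ^ 4 →
      c - a = v ^ 4 → Cf e 1 2 2 a b c := by
    intro a b c s t k1 k2 k3 k5 k6
    apply Cf_of_sum he he0 (by norm_num)
    simp only [pow_one]
    exact sum_122 he he0 hee hz k1 k2 k3 k5 k6
  have h223 : ∀ {a b c s t : ZMod p}, a ≠ b → a ≠ c → b ≠ c → a - c = s ^ 4 →
      b - c = t ^ 4 → Cf e 2 2 3 a b c := by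
    intro a b c s t k1 k2 k3 k5 k6
    apply Cf_of_sum he he0 (by norm_num)
    exact sum_223 he he0 hee hz k1 k2 k3 k5 k6
  have h123 : ∀ {a b c r v : ZMod p}, a ≠ b → a ≠ c → b ≠ c → a - b = r ^ 4 →
      c - b = v ^ 4 → Cf e 1 2 3 a b c := by
    intro a b c s t k1 k2 k3 k5 k6
    apply Cf_of_sum he he0 (by norm_num)
    simp only [pow_one]
    exact sum_123 he he0 hee hz k1 k2 k3 k5 k6
  have h222 : Cf e 2 2 2 a b c := by
    have := coeff_cubic_ne_zero (p := p) (by omega) hab hac hbc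
    rw [mul_pow, mul_pow, show (p - 1) / 2 = 2 * e by omega] at this
    exact this
  have c1 : w1 = 1 ∨ w1 = 2 ∨ w1 = 3 := by omega
  have c2 : w2 = 1 ∨ w2 = 2 ∨ w2 = 3 := by omega
  have c3 : w3 = 1 ∨ w3 = 2 ∨ w3 = 3 := by omega
  rcases c1 with c1 | c1 | c1 <;> rcases c2 with c2 | c2 | c2 <;>
    rcases c3 with c3 | c3 | c3
  · omega
  · omega
  · -- 113
    rw [c1, c2, c3]
    exact h113 hab hac hbc hrab hrac hrbc
  · omega
  · -- 122
    rw [c1, c2, c3]
    exact h122 hab hac hbc hrba hrca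
  · -- 123
    rw [c1, c2, c3]
    exact h123 hab hac hbc hrab hrcb
  · -- 131
    rw [c1, c2, c3]
    exact (h113 hac hab hbc.symm hrac hrab hrcb).swap23
  · -- 132
    rw [c1, c2, c3]
    exact (h123 hac hab hbc.symm hrac hrbc).swap23
  · -- 133
    rw [c1, c2, c3]
    exact h133 hab hac hbc hrbc hrba hrca
  · omega
  · -- 212
    rw [c1, c2, c3]
    exact (h122 hab.symm hbc hac hrab hrcb).swap12
  · -- 213
    rw [c1, c2, c3]
    exact (h123 hab.symm hbc hac hrba hrca).swap12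
  · -- 221
    rw [c1, c2, c3]
    exact (h122 hac.symm hbc.symm hab hrac hrbc).swap12.swap23
  · -- 222
    rw [c1, c2, c3]
    exact h222
  · -- 223
    rw [c1, c2, c3]
    exact h223 hab hac hbc hrac hrbc
  · -- 231
    rw [c1, c2, c3]
    exact (h123 hac.symm hbc.symm hab hrca hrba).swap12.swap23
  · -- 232
    rw [c1, c2, c3]
    exact (h223 hac hab hbc.symm hrab hrcb).swap23
  · omega
  · -- 311
    rw [c1, c2, c3]
    exact (h113 hbc hab.symm hac.symm hrbc hrba hrca).swap23.swap12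
  · -- 312
    rw [c1, c2, c3]
    exact (h123 hbc hab.symm hac.symm hrbc hrac).swap23.swap12
  · -- 313
    rw [c1, c2, c3]
    exact (h133 hab.symm hbc hac hrac hrab hrcb).swap12
  · -- 321
    rw [c1, c2, c3]
    exact (h123 hbc.symm hac.symm hab.symm hrcb hrab).swap12.swap23.swap12
  · -- 322
    rw [c1, c2, c3]
    exact (h223 hbc hab.symm hac.symm hrba hrca).swap23.swap12
  · omega
  · -- 331
    rw [c1, c2, c3]
    exact (h133 hac.symm hbc.symm hab hrab hrac hrbc).swap12.swap23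
  · omega
  · omega

theorem coeff_four_ne_zero {e w1 w2 w3 : ℕ} (he : 4 * e + 1 = p) (he0 : 0 < e) (h1 : 0 < w1)
    (h1' : w1 < 4) (h2 : 0 < w2) (h2' : w2 < 4) (h3 : 0 < w3) (h3' : w3 < 4)
    (hS : 4 ≤ w1 + w2 + w3) (hS' : w1 + w2 + w3 < 8) {a b c : ZMod p} (hab : a ≠ b)
    (hac : a ≠ c) (hbc : b ≠ c)
    (hD : ∀ x ∈ ({a, b, c} : Set (ZMod p)), ∀ y ∈ ({a, b, c} : Set (ZMod p)),
      ∃ r : ZMod p, x - y = r ^ 4) :
    ((X - C a) ^ (w1 * e) * (X - C b) ^ (w2 * e) * (X - C c) ^ (w3 * e) : (ZMod p)[X]).coeff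
      (p - 1) ≠ 0 := Cf_four he he0 h1 h1' h2 h2' h3 h3' hS hS' hab hac hbc hD

section kappa

variable {κ : Type*} [Field κ] [CharP κ p]

theorem base4 {e : ℕ} (he : 4 * e + 1 = p) (he0 : 0 < e) : BasePieceD p 4 e 3 4 κ := by
  classical
  have hp : 0 < p := (Fact.out : p.Prime).pos
  intro s W q hcard hs hsD hW hq hdeg hcop
  have hz : ∀ c ∈ s, ∃ z : ZMod p, ZMod.castHom dvd_rfl κ z = c := by
    intro c hc
    obtain ⟨n, rfl⟩ := hs c hc
    exact ⟨(n : ZMod p), map_natCast _ n⟩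
  have hconst : q.natDegree = 0 → ∃ α : κ, α ≠ 0 ∧ q = C α := by
    intro h
    refine ⟨q.coeff 0, ?_, eq_C_of_natDegree_eq_zero h⟩
    intro h0
    apply hq
    rw [eq_C_of_natDegree_eq_zero h, h0, C_0]
  have hcases : s.card = 0 ∨ s.card = 1 ∨ s.card = 2 ∨ s.card = 3 := by omega
  rcases hcases with h | h | h | h
  · rw [Finset.card_eq_zero] at h
    subst h
    simp at hdeg
  · obtain ⟨x, rfl⟩ := Finset.card_eq_one.1 h
    have h1 := hW x (by simp)
    rw [Finset.sum_singleton] at hdeg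
    omega
  · obtain ⟨x, y, hxy, rfl⟩ := Finset.card_eq_two.1 h
    have h1 := hW x (by simp)
    have h2 := hW y (by simp)
    rw [Finset.sum_pair hxy] at hdeg
    obtain ⟨α, hα, rfl⟩ := hconst (by omega)
    unfold wpoly at hcop
    rw [Finset.prod_pair hxy] at hcop
    exact two_points he h1.2 h2.2 (by omega) hxy α hα hcop
  · obtain ⟨x, y, z, hxy, hxz, hyz, rfl⟩ := Finset.card_eq_three.1 h
    have h1 := hW x (by simp)
    have h2 := hW y (by simp)
    have h3 := hW z (by simp)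
    obtain ⟨x, rfl⟩ := hz x (by simp)
    obtain ⟨y, rfl⟩ := hz y (by simp)
    obtain ⟨z, rfl⟩ := hz z (by simp)
    have hsum : ∀ f : κ → ℕ, ∑ c ∈ ({ZMod.castHom dvd_rfl κ x, ZMod.castHom dvd_rfl κ y,
        ZMod.castHom dvd_rfl κ z} : Finset κ), f c = f (ZMod.castHom dvd_rfl κ x) +
          f (ZMod.castHom dvd_rfl κ y) + f (ZMod.castHom dvd_rfl κ z) := by
      intro f
      rw [Finset.sum_insert (by simp only [Finset.mem_insert, Finset.mem_singleton, not_or]; exact ⟨hxy, hxz⟩),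
        Finset.sum_pair hyz, add_assoc]
    have hprod : ∀ f : κ → κ[X], ∏ c ∈ ({ZMod.castHom dvd_rfl κ x, ZMod.castHom dvd_rfl κ y,
        ZMod.castHom dvd_rfl κ z} : Finset κ), f c = f (ZMod.castHom dvd_rfl κ x) *
          f (ZMod.castHom dvd_rfl κ y) * f (ZMod.castHom dvd_rfl κ z) := by
      intro f
      rw [Finset.prod_insert (by simp only [Finset.mem_insert, Finset.mem_singleton, not_or]; exact ⟨hxy, hxz⟩),
        Finset.prod_pair hyz, mul_assoc]
    rw [hsum] at hdeg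
    unfold wpoly at hcop
    rw [hprod] at hcop
    simp only [id] at hcop
    have hxy' : x ≠ y := fun h => hxy (by rw [h])
    have hxz' : x ≠ z := fun h => hxz (by rw [h])
    have hyz' : y ≠ z := fun h => hyz (by rw [h])
    by_cases hbig : 8 ≤ W (ZMod.castHom dvd_rfl κ x) + W (ZMod.castHom dvd_rfl κ y) +
        W (ZMod.castHom dvd_rfl κ z)
    · exact dual_three he h1.2 h2.2 h3.2 (by omega) hxy hxz hyz hq (by omega) hcop
    · obtain ⟨α, hα, rfl⟩ := hconst (by omega)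
      have hcf := coeff_four_ne_zero (w1 := W (ZMod.castHom dvd_rfl κ x))
        (w2 := W (ZMod.castHom dvd_rfl κ y)) (w3 := W (ZMod.castHom dvd_rfl κ z)) he he0 h1.1 h1.2
        h2.1 h2.2 h3.1 h3.2 (by omega) (by omega) hxy' hxz' hyz' (by
          intro u hu v hv
          have hmem : ∀ w ∈ ({x, y, z} : Set (ZMod p)), ZMod.castHom dvd_rfl κ w ∈
              ({ZMod.castHom dvd_rfl κ x, ZMod.castHom dvd_rfl κ y,
                ZMod.castHom dvd_rfl κ z} : Finset κ) := by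
            intro w hw
            rcases hw with rfl | rfl | rfl <;> simp
          obtain ⟨n, hn⟩ := hsD _ (hmem u hu) _ (hmem v hv)
          refine ⟨(n : ZMod p), ?_⟩
          apply (ZMod.castHom dvd_rfl κ).injective
          rw [map_sub, hn, map_pow, map_natCast])
      apply cop_const_ne_zero hcf hα
      rw [← hcop]
      simp only [Polynomial.map_pow, Polynomial.map_mul, Polynomial.map_sub, map_X, map_C]

end kappa

end

end MPadc574Q
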