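import Mathlib
import Pool.Agent.Lib.MP_adc574_ag_Q.MainD
import Pool.Agent.Lib.MP_adc574_ag_Q.Base4

/-! # Specialisation for exponent four: adjoin the fourth roots of the differences -/

namespace MPadc574Q

open Polynomial MPadc574

noncomputable section

universe u v

theorem core4 {k : Type v} [Field k] [CharZero k] {K : Type u} [Field K] [CharZero K]
    [IsAlgClosed K] (j : k →+* K) (A : Subalgebra ℤ k) (hA : A.FG) {n : ℕ}
    (a : Fin n → A) (ha : Function.Injective a) {r : ℕ} (hr : n ≤ r + 3) (x : Fin r → k)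
    (hxind : AlgebraicIndependent ℚ x)
    (hx : ∀ t, ∃ i j l m, i ≠ j ∧ x t =
      (algebraMap A k (a l) - algebraMap A k (a m)) / (algebraMap A k (a i) - algebraMap A k (a j)))
    (c : A) (hc : c ≠ 0) (N : ℕ) :
    ∃ p e : ℕ, p.Prime ∧ N < p ∧ 4 * e + 1 = p ∧ ∃ (κ : Type u) (_ : Field κ) (_ : CharP κ p)
      (φ : A →+* κ), φ c ≠ 0 ∧ ∀ I : Finset (Fin n), 1 < I.card →
        (∀ i ∈ I, ∀ j ∈ I, φ (a i) = φ (a j) → i = j) →
        ∀ w : Fin n → ℕ, (∀ i ∈ I, w i ≤ 4) → ∀ q : κ[X], q ≠ 0 →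
          4 * (q.natDegree + 1) ≤ ∑ i ∈ I, w i →
          cop p (wpoly e I (fun i => φ (a i)) w * q) ≠ 0 := by
  classical
  have hroot : ∀ i l : Fin n, ∃ z : K, z ^ 4 = j ((a i : k) - a l) := fun i l =>
    IsAlgClosed.exists_pow_nat_eq _ (by norm_num)
  choose dl hdl using hroot
  obtain ⟨G, hG⟩ := hA
  let ι : k →ₐ[ℤ] K := j.toIntAlgHom
  set A' : Subalgebra ℤ K := Algebra.adjoin ℤ
    (((G.image ι) ∪ (Finset.univ.image fun z : Fin n × Fin n => dl z.1 z.2) : Finset K) : Set K)
    with hA'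
  have hA'fg : A'.FG := ⟨_, rfl⟩
  have hft' : Algebra.FiniteType ℤ A' := A'.fg_iff_finiteType.1 hA'fg
  have hAA' : ∀ y : A, ι (y : k) ∈ A' := by
    intro y
    have h1 : (y : k) ∈ Algebra.adjoin ℤ (G : Set k) := by
      rw [hG]
      exact y.2
    have h2 : ι (y : k) ∈ (Algebra.adjoin ℤ (G : Set k)).map ι := ⟨_, h1, rfl⟩
    rw [AlgHom.map_adjoin] at h2
    refine Algebra.adjoin_mono ?_ h2
    rw [Finset.coe_union, Finset.coe_image]
    exact Set.subset_union_left
  have hdlA' : ∀ i l, dl i l ∈ A' := by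
    intro i l
    apply Algebra.subset_adjoin
    rw [Finset.coe_union, Finset.coe_image, Finset.coe_image]
    exact Or.inr ⟨(i, l), by simp, rfl⟩
  let inc : A →+* A' :=
    { toFun := fun y => ⟨ι y, hAA' y⟩
      map_one' := Subtype.ext (by simp)
      map_mul' := fun x y => Subtype.ext (by simp)
      map_zero' := Subtype.ext (by simp)
      map_add' := fun x y => Subtype.ext (by simp) }
  have hincinj : Function.Injective inc := by
    intro x y h
    have h1 := congrArg Subtype.val h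
    exact Subtype.ext (j.injective h1)
  have hAK' : Function.Injective (algebraMap A' K) := Subtype.val_injective
  have hxind' : AlgebraicIndependent ℚ (fun t => j (x t)) := by
    have h1 := hxind.map' (f := (j.toRatAlgHom : k →ₐ[ℚ] K)) j.injective
    exact h1
  have hx' : ∀ t, ∃ i l l' m, i ≠ l ∧ j (x t) =
      (algebraMap A' K (inc (a l')) - algebraMap A' K (inc (a m))) /
        (algebraMap A' K (inc (a i)) - algebraMap A' K (inc (a l))) := by
    intro t
    obtain ⟨i, l, l', m, hij, h⟩ := hx t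
    refine ⟨i, l, l', m, hij, ?_⟩
    rw [h, map_div₀, map_sub, map_sub]
    rfl
  obtain ⟨p, ε, hp, hnp, hpε, κ, hκ, hcharp, φ', hφ', hcore'⟩ :=
    coreD hAK' (m := 4) (b := 3) (M := 4) (by norm_num) (by norm_num) (by norm_num)
      (fun p _ ε h1 h2 κ _ _ => base4 h1 h2) (fun i => inc (a i)) (hincinj.comp ha)
      (fun i l => ⟨dl i l, hdlA' i l⟩) (fun i l => Subtype.ext (by
        change dl i l ^ 4 = j (a i : k) - j (a l : k)
        rw [hdl, map_sub])) hr (fun t => j (x t)) hxind' hx' (inc c)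
      (fun h => hc (hincinj (by rw [h, map_zero]))) N
  exact ⟨p, ε, hp, hnp, hpε, κ, hκ, hcharp, φ'.comp inc, hφ', hcore'⟩

end

end MPadc574Q
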